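import Pool.Agent.H2.GEN.LabT
import Pool.Agent.H39.GEN.RowC

/-!
# The sides of the fattest boxes

`iso g a w = min 1 (g w + (a - w))`, over a diagonal `g` (`g w = D w w` for a two-sided threshold
`D`): the box of radius exponent `a` at the window exponent `w` is the ball chart of the window,
`a - w` digits smaller. It has the laws of thresholds and the diagonal `g`, and it is the smallest
function with these properties. As a function of the window and of the depth it is
`min 1 (g w + q)`, with slope one in the depth.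
-/

set_option autoImplicit false

namespace Pool.RTS

open Pool.LEV (Law)
open Pool.LBT (LSys ThrOf)
open Pool.STR (Nw Affn)
open Pool.Agent.H49.Ent Pool.Agent.H32.Dense Pool.STK Pool.KA Pool.KSAT Pool.K2S Pool.PB Pool.S6C

/-- **The side of the fattest box.** -/
noncomputable def iso (g : ℝ → ℝ) (a w : ℝ) : ℝ := min 1 (g w + (a - w))

/-- The properties of the diagonal of a threshold. -/
structure Diag (g : ℝ → ℝ) : Prop where
  gsl : ∀ {w v : ℝ}, 0 ≤ w → 0 ≤ v → w + v ≤ 1 → min 1 (g w + v) ≤ g (w + v)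
  low : ∀ {w : ℝ}, 0 ≤ w → w ≤ 1 → w ≤ g w
  up : ∀ {w : ℝ}, 0 ≤ w → w ≤ 1 → g w ≤ 1

/-- The diagonal of a threshold. -/
theorem diag_of {D : ℝ → ℝ → ℝ} (hD : Law D) (hlow : ∀ a : ℝ, 0 ≤ a → a ≤ 1 → a ≤ D a a)
    (hup : ∀ a : ℝ, 0 ≤ a → a ≤ 1 → D a a ≤ 1) : Diag fun w => D w w where
  gsl := by
    intro w v h1 h2 h3
    exact (hD.slope w w v h1 le_rfl h2 h3).trans
      (hD.mono_w (w + v) w (w + v) h1 (by linarith) le_rfl h3)
  low := fun h0 h1 => hlow _ h0 h1
  up := fun h0 h1 => hup _ h0 h1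

/-- The diagonals of the thresholds of a class. -/
theorem diag_thr {m : ℕ} {L : LSys m} {S : PCl m} {P : L.ι → ℝ → ℝ → ℝ}
    (hP : ThrOf L S P) (i : L.ι) : Diag fun w => P i w w :=
  diag_of (hP.law i) (fun a h0 h1 => hP.low i a a h0 le_rfl h1)
    fun a h0 h1 => hP.up i a a h0 le_rfl h1

variable {g : ℝ → ℝ}

namespace Diag

theorem mono (h : Diag g) {w w' : ℝ} (h0 : 0 ≤ w) (h1 : w ≤ w') (h2 : w' ≤ 1) : g w ≤ g w' := by
  have h3 := h.gsl h0 (sub_nonneg.2 h1) (by linarith)
  rw [add_sub_cancel] at h3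
  exact (le_min (h.up h0 (h1.trans h2)) (by linarith)).trans h3

/-- The slope is at least one, below the value one. -/
theorem slope (h : Diag g) {w w' : ℝ} (h0 : 0 ≤ w) (h1 : w ≤ w') (h2 : w' ≤ 1) (h3 : g w' < 1) :
    g w + (w' - w) ≤ g w' := by
  have h4 := h.gsl h0 (sub_nonneg.2 h1) (by linarith)
  rw [add_sub_cancel] at h4
  rcases min_le_iff.1 h4 with h5 | h5
  · linarith
  · exact h5

end Diag

theorem iso_le_one (g : ℝ → ℝ) (a w : ℝ) : iso g a w ≤ 1 := min_le_left _ _

theorem iso_le (g : ℝ → ℝ) (a w : ℝ) : iso g a w ≤ g w + (a - w) := min_le_right _ _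

/-- **The diagonal.** -/
theorem iso_dia (h : Diag g) {a : ℝ} (h0 : 0 ≤ a) (h1 : a ≤ 1) : iso g a a = g a := by
  rw [iso, sub_self, add_zero, min_eq_right (h.up h0 h1)]

/-- **The laws.** -/
theorem iso_law (h : Diag g) : Law (iso g) where
  mono_a := fun a a' w _ _ h2 _ => min_le_min le_rfl (by linarith)
  mono_w := by
    intro a w w' h0 h1 h2 h3
    refine le_min (min_le_left _ _) ?_
    have h4 := h.gsl h0 (sub_nonneg.2 h1) (by linarith)
    rw [add_sub_cancel] at h4
    rcases min_le_iff.1 h4 with h5 | h5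
    · exact (min_le_left _ _).trans (by linarith)
    · exact (min_le_right _ _).trans (by linarith)
  slope := by
    intro a w v _ _ h2 _
    refine le_min (min_le_left _ _) ?_
    have := iso_le g a w
    exact (min_le_right _ _).trans (by linarith)

/-- The lower bound by the diagonal at the window. -/
theorem iso_lo (h : Diag g) {a w : ℝ} (h0 : 0 ≤ w) (h1 : w ≤ a) (h2 : a ≤ 1) : g w ≤ iso g a w :=
  le_min (h.up h0 (h1.trans h2)) (by linarith)

/-- The upper bound by the diagonal at the radius. -/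
theorem iso_up (h : Diag g) {a w : ℝ} (h0 : 0 ≤ w) (h1 : w ≤ a) (h2 : a ≤ 1) :
    iso g a w ≤ g a := by
  have h3 := h.gsl h0 (sub_nonneg.2 h1) (by linarith)
  rwa [add_sub_cancel] at h3

theorem iso_low (h : Diag g) {a w : ℝ} (h0 : 0 ≤ w) (h1 : w ≤ a) (h2 : a ≤ 1) : a ≤ iso g a w :=
  le_min h2 (by linarith [h.low h0 (h1.trans h2)])

/-- **The smallest side**: below all functions with the laws and the same diagonal. -/
theorem iso_least {β : ℝ → ℝ → ℝ} (hβ : Law β) (hd : ∀ a : ℝ, 0 ≤ a → a ≤ 1 → β a a = g a)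
    {a w : ℝ} (h0 : 0 ≤ w) (h1 : w ≤ a) (h2 : a ≤ 1) : iso g a w ≤ β a w := by
  have h3 := hβ.slope w w (a - w) h0 le_rfl (sub_nonneg.2 h1) (by linarith)
  rwa [add_sub_cancel, hd w h0 (h1.trans h2)] at h3

/-- Exactly one digit for every digit of the radius, below the value one. -/
theorem iso_add {a w v : ℝ} (h : iso g (a + v) w < 1) (hv : 0 ≤ v) :
    iso g (a + v) w = iso g a w + v := by
  have h1 : g w + (a + v - w) < 1 := by
    by_contra hcon
    push Not at hcon
    exact absurd h (not_lt.2 (le_min le_rfl hcon))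
  rw [iso, iso, min_eq_right h1.le, min_eq_right (by linarith)]
  ring

/-- At most one digit for every digit of the radius. -/
theorem iso_lip {a a' w : ℝ} (h : a ≤ a') : iso g a' w ≤ iso g a w + (a' - a) := by
  rw [iso, iso, ← min_add_add_right]
  exact min_le_min (by linarith) (by linarith)

/-- In the plane of the windows and depths. -/
theorem nw_iso (g : ℝ → ℝ) (y : ℝ × ℝ) : Nw (iso g) y = min 1 (g y.1 + y.2) := by
  rw [Nw, iso]
  congr 2
  ring

/-- The level curve of a row `Q < 1` is `q = Q - g w`. -/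
theorem nw_iso_eq {y : ℝ × ℝ} {Q : ℝ} (hQ : Q < 1) : Nw (iso g) y = Q ↔ y.2 = Q - g y.1 := by
  rw [nw_iso]
  constructor
  · intro h
    rcases min_choice 1 (g y.1 + y.2) with h1 | h1 <;> rw [h1] at h <;> linarith
  · intro h
    have h1 : g y.1 + y.2 = Q := by linarith
    rw [h1, min_eq_right hQ.le]

theorem nw_iso_lt {y : ℝ × ℝ} (h : Nw (iso g) y < 1) : Nw (iso g) y = g y.1 + y.2 := by
  rw [nw_iso] at h ⊢
  rcases min_choice 1 (g y.1 + y.2) with h1 | h1
  · rw [h1] at h
    exact absurd h (lt_irrefl _)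
  · exact h1

/-- **Slope one in the depth** on every cell on which the side is affine. -/
theorem iso_mu {ε X lam mu : ℝ} {y : ℝ × ℝ} (h : Affn (Nw (iso g)) ε y X lam mu) (hX : 0 < X)
    (h1 : Nw (iso g) (y.1, y.2 + X) < 1) : |mu - 1| ≤ ε := by
  have h2 := h (y.1, y.2 + X) (by
    rw [Prod.dist_eq, dist_self, Real.dist_eq]
    simp only [add_sub_cancel_left]
    rw [abs_of_pos hX]
    exact max_le hX.le le_rfl)
  have h3 := nw_iso_lt h1
  have h4 : Nw (iso g) y = g y.1 + y.2 := by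
    refine nw_iso_lt (lt_of_le_of_lt ?_ h1)
    rw [nw_iso, nw_iso]
    exact min_le_min le_rfl (by simp only; linarith)
  rw [h3, h4] at h2
  simp only at h2
  have h5 : g y.1 + (y.2 + X) - (g y.1 + y.2) - (lam * (y.1 - y.1) + mu * (y.2 + X - y.2)) =
      (1 - mu) * X := by ring
  rw [h5, abs_mul, abs_of_pos hX] at h2
  have h6 := le_of_mul_le_mul_right h2 hX
  rwa [abs_sub_comm] at h6

/-- **The slope of the diagonal** on every cell on which the side is affine: the slope in the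
window is the slope of the diagonal. -/
theorem iso_lam {ε X lam mu : ℝ} {y : ℝ × ℝ} (h : Affn (Nw (iso g)) ε y X lam mu) (hX : 0 < X)
    {x : ℝ} (hx : |x - y.1| ≤ X) (h1 : Nw (iso g) (x, y.2) < 1) (h2 : Nw (iso g) y < 1) :
    |g x - g y.1 - lam * (x - y.1)| ≤ ε * X := by
  have h3 := h (x, y.2) (by
    rw [Prod.dist_eq, dist_self, Real.dist_eq]
    exact max_le hx hX.le)
  rw [nw_iso_lt h1, nw_iso_lt h2] at h3
  simp only at h3
  have h5 : g x + y.2 - (g y.1 + y.2) - (lam * (x - y.1) + mu * (y.2 - y.2)) =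
      g x - g y.1 - lam * (x - y.1) := by ring
  rwa [h5] at h3

/-- **All together**, for the thresholds of a class. -/
theorem iso_thr {m : ℕ} {L : LSys m} {S : PCl m} {P : L.ι → ℝ → ℝ → ℝ}
    (hP : ThrOf L S P) (i : L.ι) : Law (iso fun w => P i w w) ∧
      (∀ a : ℝ, 0 ≤ a → a ≤ 1 → iso (fun w => P i w w) a a = P i a a) ∧
      (∀ a w : ℝ, 0 ≤ w → w ≤ a → a ≤ 1 → iso (fun w => P i w w) a w ≤ P i a w) ∧
      (∀ a w : ℝ, 0 ≤ w → w ≤ a → a ≤ 1 → a ≤ iso (fun w => P i w w) a w) :=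
  ⟨iso_law (diag_thr hP i), fun _ h0 h1 => iso_dia (diag_thr hP i) h0 h1,
    fun _ _ h0 h1 h2 => iso_least (g := fun w => P i w w) (hP.law i) (fun _ _ _ => rfl) h0 h1 h2,
    fun _ _ h0 h1 h2 => iso_low (diag_thr hP i) h0 h1 h2⟩

end Pool.RTS
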