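import Pool.Agent.H95.GN.Lag
import Pool.Agent.H71.GEN.Poly
import Pool.Agent.H80.GEN.Chn

/-!
# Labels from digits of the own heights

`Q i`: closed polynomials (functions of the exact point and of the line with its window of length
`2 ^ (-w)`). `hgt l k Q τ`: the height of the line `l` over the graph of `Q`, in the coordinate `k`,
at the time `τ`. If a visible variable shows the heights over `Q i` at the `K + 1` times
`(T_w + n / (K + 1)) / 2 ^ w`, `n ≤ K`, to `P i` digits, there is a chain of labels with the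
precisions `P i - C` over all boxes (`own_chn`): `Q i` plus the interpolation of the digits on the
side of the point, `Q i` plus the height on the side of the line.
-/

set_option autoImplicit false

namespace Pool.RTS

open Finset Real MvPolynomial
open Pool.Agent.H49.Ent Pool.Agent.H32.Dense Pool.STK Pool.KA Pool.KSAT Pool.K2S Pool.PB Pool.S6C
open Pool.GEN

variable {m J : ℕ}

/-! ### Heights -/

/-- The point of the line `l` at the time `τ`, with the time. -/
def lpt (l : (Fin m → ℝ) × (Fin m → ℝ)) (τ : ℝ) : Option (Fin m) → ℝ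
  | none => τ
  | some j => l.1 j + τ * l.2 j

/-- The height of the line over the graph of `Q`, in the coordinate `k`, at the time `τ`. -/
noncomputable def hgt (l : (Fin m → ℝ) × (Fin m → ℝ)) (k : Fin m)
    (Q : MvPolynomial (Option (Fin m)) ℝ) (τ : ℝ) : ℝ :=
  l.1 k + τ * l.2 k - eval (lpt l τ) Q

theorem bt_eq (F : Fam m J) (ω : F.Ω) : bt F ω = lpt (F.l ω) (F.t ω) := by
  funext o
  cases o <;> rfl

theorem hgt_self (F : Fam m J) (ω : F.Ω) (k : Fin m) (Q : MvPolynomial (Option (Fin m)) ℝ) :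
    hgt (F.l ω) k Q (F.t ω) = F.x ω k - eval (bt F ω) Q := by
  rw [bt_eq]
  rfl

/-- The height is a polynomial of the time. -/
theorem hgt_poly {K : ℕ} (hK : 1 ≤ K) (l : (Fin m → ℝ) × (Fin m → ℝ)) (k : Fin m)
    {Q : MvPolynomial (Option (Fin m)) ℝ} (hQ : Q.totalDegree ≤ K) :
    ∃ f : Polynomial ℝ, f.natDegree ≤ K ∧ ∀ τ, f.eval τ = hgt l k Q τ := by
  obtain ⟨g, hg⟩ : ∃ g : Option (Fin m) → Polynomial ℝ, g = fun o => o.elim Polynomial.X
    fun j => Polynomial.C (l.1 j) + Polynomial.C (l.2 j) * Polynomial.X := ⟨_, rfl⟩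
  have hd : ∀ a b : ℝ, (Polynomial.C a + Polynomial.C b * Polynomial.X).natDegree ≤ 1 := by
    intro a b
    refine (Polynomial.natDegree_add_le _ _).trans (max_le ?_ ?_)
    · rw [Polynomial.natDegree_C]
      exact Nat.zero_le _
    · exact (Polynomial.natDegree_C_mul_le _ _).trans Polynomial.natDegree_X_le
  have hg1 : ∀ o, (g o).natDegree ≤ 1 := by
    intro o
    rw [hg]
    cases o with
    | none => exact Polynomial.natDegree_X_le
    | some j => exact hd _ _
  refine ⟨Polynomial.C (l.1 k) + Polynomial.C (l.2 k) * Polynomial.X - aeval g Q, ?_, ?_⟩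
  · refine (Polynomial.natDegree_sub_le _ _).trans (max_le ((hd _ _).trans hK) ?_)
    exact Pool.UNJ.natDegree_aeval_le Q g hg1 hQ
  · intro τ
    rw [Polynomial.eval_sub, Pool.UNJ.eval_aeval_poly]
    have e : (fun i => (g i).eval τ) = lpt l τ := by
      funext o
      rw [hg]
      cases o with
      | none => exact Polynomial.eval_X
      | some j =>
        show (Polynomial.C (l.1 j) + Polynomial.C (l.2 j) * Polynomial.X).eval τ = _
        simp only [Polynomial.eval_add, Polynomial.eval_mul, Polynomial.eval_C,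
          Polynomial.eval_X]
        rw [mul_comm]
        rfl
    rw [e]
    simp only [Polynomial.eval_add, Polynomial.eval_mul, Polynomial.eval_C, Polynomial.eval_X]
    unfold hgt
    ring

/-! ### Polynomials of the time -/

/-- A polynomial of the time, as a polynomial of the time and of the coordinates. -/
noncomputable def tpl (m : ℕ) (f : Polynomial ℝ) : MvPolynomial (Option (Fin m)) ℝ :=
  Polynomial.aeval (X none) f

theorem eval_tpl (f : Polynomial ℝ) (b : Option (Fin m) → ℝ) :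
    eval b (tpl m f) = f.eval (b none) := by
  unfold tpl
  induction f using Polynomial.induction_on' with
  | add p q hp hq => rw [map_add, map_add, hp, hq, Polynomial.eval_add]
  | monomial n a =>
    rw [Polynomial.aeval_monomial, Polynomial.eval_monomial, map_mul, map_pow, eval_X]
    congr 1
    exact eval_C a

theorem deg_tpl {f : Polynomial ℝ} {K : ℕ} (hf : f.natDegree ≤ K) :
    (tpl m f).totalDegree ≤ K := by
  unfold tpl
  rw [Polynomial.aeval_eq_sum_range]
  refine (MvPolynomial.totalDegree_finsetSum _ _).trans ?_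
  refine Finset.sup_le fun k hk => ?_
  refine (MvPolynomial.totalDegree_smul_le _ _).trans ?_
  refine (MvPolynomial.totalDegree_pow _ _).trans ?_
  rw [MvPolynomial.totalDegree_X, mul_one]
  have := Finset.mem_range.mp hk
  omega

theorem dep_tpl (c : ℕ → Fin m) (i : ℕ) (f : Polynomial ℝ) : DepC c i (tpl m f) := by
  intro b b' hn _
  rw [eval_tpl, eval_tpl, hn]

/-! ### Interpolation -/

/-- The interpolation of the values `y n` at the times `(k + n / (K + 1)) / 2 ^ w`. -/
noncomputable def itp (K w : ℕ) (k : ℕ) (y : ℕ → ℝ) : Polynomial ℝ :=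
  (Lagrange.interpolate (Finset.range (K + 1)) (fun n : ℕ => (n : ℝ) / (K + 1)) y).comp
    (Polynomial.C (2 ^ w : ℝ) * Polynomial.X - Polynomial.C (k : ℝ))

theorem inj_nd (K : ℕ) : Set.InjOn (fun n : ℕ => (n : ℝ) / (K + 1))
    (Finset.range (K + 1) : Finset ℕ) := by
  intro i _ k _ h
  have hD : (0 : ℝ) < K + 1 := by positivity
  have h1 : (i : ℝ) / (K + 1) = (k : ℝ) / (K + 1) := h
  field_simp at h1
  exact_mod_cast h1

theorem deg_lin (w k : ℕ) : (Polynomial.C (2 ^ w : ℝ) * Polynomial.X -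
    Polynomial.C (k : ℝ)).natDegree ≤ 1 := by
  refine (Polynomial.natDegree_sub_le _ _).trans (max_le ?_ ?_)
  · exact (Polynomial.natDegree_C_mul_le _ _).trans Polynomial.natDegree_X_le
  · rw [Polynomial.natDegree_C]
    exact Nat.zero_le _

theorem deg_itp (K w k : ℕ) (y : ℕ → ℝ) : (itp K w k y).natDegree ≤ K := by
  unfold itp
  rw [Polynomial.natDegree_comp]
  have h1 : (Lagrange.interpolate (Finset.range (K + 1)) (fun n : ℕ => (n : ℝ) / (K + 1))
      y).natDegree ≤ K := by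
    have h2 := Lagrange.degree_interpolate_lt y (inj_nd K)
    rw [Finset.card_range] at h2
    rcases eq_or_ne (Lagrange.interpolate (Finset.range (K + 1))
      (fun n : ℕ => (n : ℝ) / (K + 1)) y) 0 with h0 | h0
    · rw [h0, Polynomial.natDegree_zero]
      exact Nat.zero_le _
    · rw [Polynomial.degree_eq_natDegree h0] at h2
      have h3 : (Lagrange.interpolate (Finset.range (K + 1)) (fun n : ℕ => (n : ℝ) / (K + 1))
        y).natDegree < K + 1 := by exact_mod_cast h2
      omega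
  calc _ ≤ K * 1 := Nat.mul_le_mul h1 (deg_lin w k)
    _ = K := mul_one K

/-- **Interpolation of rounded values.** -/
theorem itp_near (K : ℕ) : ∃ C : ℝ, 1 ≤ C ∧ ∀ (w k : ℕ) (f : Polynomial ℝ) (y : ℕ → ℝ) (S : ℝ),
    f.natDegree ≤ K →
    (∀ n ≤ K, |f.eval (((k : ℝ) + n / (K + 1)) / 2 ^ w) - y n| ≤ S) →
    ∀ t : ℝ, |2 ^ w * t - k| ≤ 2 → |f.eval t - (itp K w k y).eval t| ≤ C * S := by
  obtain ⟨C, hC, h⟩ := Pool.UNJ.lag1 K 2
  refine ⟨C, hC, fun w k f y S hf hy t ht => ?_⟩
  have h2w : (0 : ℝ) < 2 ^ w := by positivity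
  obtain ⟨L, hL⟩ : ∃ L, L = Lagrange.interpolate (Finset.range (K + 1))
    (fun n : ℕ => (n : ℝ) / (K + 1)) y := ⟨_, rfl⟩
  obtain ⟨q, hq⟩ : ∃ q : Polynomial ℝ, q = (f - itp K w k y).comp
    (Polynomial.C (1 / 2 ^ w : ℝ) * Polynomial.X + Polynomial.C (k / 2 ^ w : ℝ)) := ⟨_, rfl⟩
  have hqe : ∀ s : ℝ, q.eval s = f.eval ((k + s) / 2 ^ w) - L.eval s := by
    intro s
    rw [hq, Polynomial.eval_comp, Polynomial.eval_sub]
    have e1 : (Polynomial.C (1 / 2 ^ w : ℝ) * Polynomial.X + Polynomial.C (k / 2 ^ w : ℝ)).eval s =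
        (k + s) / 2 ^ w := by
      simp only [Polynomial.eval_add, Polynomial.eval_mul, Polynomial.eval_C, Polynomial.eval_X]
      ring
    rw [e1]
    congr 1
    unfold itp
    rw [← hL, Polynomial.eval_comp]
    congr 1
    simp only [Polynomial.eval_sub, Polynomial.eval_mul, Polynomial.eval_C, Polynomial.eval_X]
    field_simp
    ring
  have hqd : q.natDegree ≤ K := by
    rw [hq, Polynomial.natDegree_comp]
    have h1 : (f - itp K w k y).natDegree ≤ K :=
      (Polynomial.natDegree_sub_le _ _).trans (max_le hf (deg_itp K w k y))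
    have h2 : (Polynomial.C (1 / 2 ^ w : ℝ) * Polynomial.X +
        Polynomial.C (k / 2 ^ w : ℝ)).natDegree ≤ 1 := by
      refine (Polynomial.natDegree_add_le _ _).trans (max_le ?_ ?_)
      · exact (Polynomial.natDegree_C_mul_le _ _).trans Polynomial.natDegree_X_le
      · rw [Polynomial.natDegree_C]
        exact Nat.zero_le _
    calc _ ≤ K * 1 := Nat.mul_le_mul h1 h2
      _ = K := mul_one K
  have h3 : ∀ i : Fin (K + 1), |q.eval (((i : ℕ) : ℝ) / (K + 1))| ≤ S := by
    intro i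
    rw [hqe]
    have e2 : L.eval (((i : ℕ) : ℝ) / (K + 1)) = y i := by
      rw [hL]
      exact Lagrange.eval_interpolate_at_node y (inj_nd K) (Finset.mem_range.2 i.2)
    rw [e2]
    exact hy i (Nat.lt_succ_iff.1 i.2)
  have h4 := h q S hqd h3 (2 ^ w * t - k) ⟨by have := abs_le.1 ht; linarith [this.1], by
    have := abs_le.1 ht; linarith [this.2]⟩
  rw [hqe] at h4
  have e3 : ((k : ℝ) + (2 ^ w * t - k)) / 2 ^ w = t := by
    field_simp
    ring
  rw [e3] at h4
  have e4 : L.eval (2 ^ w * t - k) = (itp K w k y).eval t := by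
    unfold itp
    rw [← hL, Polynomial.eval_comp]
    congr 1
    simp only [Polynomial.eval_sub, Polynomial.eval_mul, Polynomial.eval_C, Polynomial.eval_X]
  rwa [e4] at h4

/-! ### Natural boxes are bounded -/

/-- The coordinates of a natural box are bounded. -/
theorem nbx_bdd {c : ℕ → Fin m} {G : ℕ → MvPolynomial (Option (Fin m)) ℝ}
    (hG : ∀ i, DepC c i (G i)) (g : ℕ → ℕ) (a : ℕ) (t : ℝ) (i : ℕ) :
    ∃ R : ℝ, ∀ b : Option (Fin m) → ℝ, NBx c G g a t i b →
      |b none| ≤ R ∧ ∀ l < i, |b (some (c l))| ≤ R := by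
  classical
  induction i with
  | zero =>
    refine ⟨|t| + 1, fun b hb => ⟨?_, fun l hl => absurd hl (Nat.not_lt_zero l)⟩⟩
    have h1 := hb.1
    have h2 : (1 : ℝ) / 2 ^ a ≤ 1 := by
      rw [div_le_one (by positivity)]
      exact one_le_pow₀ (by norm_num)
    have h3 := abs_sub_abs_le_abs_sub (b none) t
    linarith
  | succ i ih =>
    obtain ⟨R, hR⟩ := ih
    -- the values of `G i` on a cube
    obtain ⟨M, hM⟩ := (isCompact_univ_pi fun _ : Option (Fin m) =>
      isCompact_Icc (a := -R) (b := R)).exists_bound_of_continuousOn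
      (MvPolynomial.continuous_eval (G i)).continuousOn
    refine ⟨max R (M + 1), fun b hb => ?_⟩
    have hb' : NBx c G g a t i b := hb.mono le_rfl (Nat.le_succ i)
    have h1 := hR b hb'
    refine ⟨h1.1.trans (le_max_left _ _), fun l hl => ?_⟩
    rcases Nat.lt_succ_iff_lt_or_eq.1 hl with h2 | h2
    · exact (h1.2 l h2).trans (le_max_left _ _)
    · rw [h2]
      refine le_trans ?_ (le_max_right _ _)
      have hR0 : 0 ≤ R := (abs_nonneg _).trans h1.1
      obtain ⟨b', hb'e⟩ : ∃ b' : Option (Fin m) → ℝ, b' = fun o =>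
        if o = none ∨ ∃ l < i, o = some (c l) then b o else 0 := ⟨_, rfl⟩
      have h3 : eval b (G i) = eval b' (G i) := by
        refine hG i b b' ?_ fun l hl => ?_
        · rw [hb'e]
          exact (if_pos (Or.inl rfl)).symm
        · rw [hb'e]
          exact (if_pos (Or.inr ⟨l, hl, rfl⟩)).symm
      have h4 : b' ∈ Set.univ.pi fun _ : Option (Fin m) => Set.Icc (-R) R := by
        intro o _
        have h5 : |b' o| ≤ R := by
          rw [hb'e]
          show |if o = none ∨ ∃ l < i, o = some (c l) then b o else 0| ≤ R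
          split_ifs with h6
          · rcases h6 with h6 | ⟨l, hl, h6⟩
            · rw [h6]
              exact h1.1
            · rw [h6]
              exact h1.2 l hl
          · rw [abs_zero]
            exact hR0
        exact abs_le.1 h5
      have h5 := hM b' h4
      rw [Real.norm_eq_abs] at h5
      have h6 := hb.2 i (Nat.lt_succ_self i)
      have h7 : (1 : ℝ) / 2 ^ g i ≤ 1 := by
        rw [div_le_one (by positivity)]
        exact one_le_pow₀ (by norm_num)
      have h8 := abs_sub_abs_le_abs_sub (b (some (c i))) (eval b (G i))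
      rw [h3] at h8 h6
      linarith

/-- The values of a polynomial on a natural box are bounded. -/
theorem eval_bdd {c : ℕ → Fin m} {G : ℕ → MvPolynomial (Option (Fin m)) ℝ}
    (hG : ∀ i, DepC c i (G i)) (g : ℕ → ℕ) (a : ℕ) (t : ℝ) (i : ℕ)
    {U : MvPolynomial (Option (Fin m)) ℝ} (hU : DepC c i U) :
    ∃ M : ℝ, ∀ b : Option (Fin m) → ℝ, NBx c G g a t i b → |eval b U| ≤ M := by
  classical
  obtain ⟨R, hR⟩ := nbx_bdd hG g a t i
  obtain ⟨M, hM⟩ := (isCompact_univ_pi fun _ : Option (Fin m) =>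
    isCompact_Icc (a := -R) (b := R)).exists_bound_of_continuousOn
    (MvPolynomial.continuous_eval U).continuousOn
  refine ⟨M, fun b hb => ?_⟩
  have h1 := hR b hb
  have hR0 : 0 ≤ R := (abs_nonneg _).trans h1.1
  obtain ⟨b', hb'e⟩ : ∃ b' : Option (Fin m) → ℝ, b' = fun o =>
    if o = none ∨ ∃ l < i, o = some (c l) then b o else 0 := ⟨_, rfl⟩
  have h3 : eval b U = eval b' U := by
    refine hU b b' ?_ fun l hl => ?_
    · rw [hb'e]
      exact (if_pos (Or.inl rfl)).symm
    · rw [hb'e]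
      exact (if_pos (Or.inr ⟨l, hl, rfl⟩)).symm
  rw [h3]
  refine hM b' ?_
  intro o _
  have h5 : |b' o| ≤ R := by
    rw [hb'e]
    show |if o = none ∨ ∃ l < i, o = some (c l) then b o else 0| ≤ R
    split_ifs with h6
    · rcases h6 with h6 | ⟨l, hl, h6⟩
      · rw [h6]
        exact h1.1
      · rw [h6]
        exact h1.2 l hl
    · rw [abs_zero]
      exact hR0
  exact abs_le.1 h5

/-! ### The chain -/

/-- **The chain of labels over closed polynomials, from digits of the own heights.** -/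
theorem own_chn (K : ℕ) (hK : 1 ≤ K) : ∃ C : ℕ, ∀ (m J : ℕ) (F : Fam m J) (c : ℕ → Fin m)
    (r w : ℕ) (g P : ℕ → ℕ) (A : F.Ω → Prop)
    (Q : PtT F → ℕ → MvPolynomial (Option (Fin m)) ℝ)
    (Q' : LnT F → ℕ → MvPolynomial (Option (Fin m)) ℝ) (κ : Type) (ζ : F.Ω → κ)
    (φ : κ → ℕ → ℕ → ℤ), w ≤ J →
    (∀ y i, (Q y i).totalDegree ≤ K) → (∀ s i, (Q' s i).totalDegree ≤ K) →
    (∀ y i, DepC c i (Q y i)) → (∀ s i, DepC c i (Q' s i)) →
    (∀ ω, A ω → ∀ i < r, Q (ptr F J ω) i = Q' (slam F w ω) i) →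
    (∀ ω, A ω → ∀ i < r, ∀ n ≤ K, φ (ζ ω) i n = ⌊(2 : ℝ) ^ P i * hgt (F.l ω) (c i)
      (Q' (slam F w ω) i) (((F.T1 w ω : ℝ) + n / (K + 1)) / 2 ^ w)⌋) →
    (∀ i < r, g i + C ≤ P i) → ∃ e : ℕ, ChN (F.cnd ζ) c r (fun _ => K) w w e g A := by
  classical
  obtain ⟨C₀, hC₀, hitp⟩ := itp_near K
  obtain ⟨C, hC⟩ := pow_unbounded_of_one_lt C₀ (by norm_num : (1 : ℝ) < 2)
  refine ⟨C, fun m J F c r w g P A Q Q' κ ζ φ hw hQ hQ' hd hd' hcl hφ hg => ?_⟩
  -- the polynomials of the heights
  have hf : ∀ (s : LnT F) (i : ℕ), ∃ f : Polynomial ℝ, f.natDegree ≤ K ∧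
      ∀ τ, f.eval τ = hgt s.1 (c i) (Q' s i) τ := fun s i => hgt_poly hK s.1 (c i) (hQ' s i)
  choose f hf1 hf2 using hf
  obtain ⟨G, hGe⟩ : ∃ G : PtT (F.cnd ζ) → ℕ → MvPolynomial (Option (Fin m)) ℝ, G = fun y i =>
    Q (y.1, y.2.1, y.2.2.2) i +
      tpl m (itp K w (y.2.1 / 2 ^ (J - w)) fun n => (φ y.2.2.1 i n : ℝ) / 2 ^ P i) := ⟨_, rfl⟩
  obtain ⟨H, hHe⟩ : ∃ H : LnT (F.cnd ζ) → ℕ → MvPolynomial (Option (Fin m)) ℝ, H = fun s i =>
    Q' (s.1, s.2.1.2, s.2.2) i + tpl m (f (s.1, s.2.1.2, s.2.2) i) := ⟨_, rfl⟩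
  have hdG : ∀ y i, DepC c i (G y i) := by
    intro y i b b' h1 h2
    rw [hGe]
    show eval b (_ + _) = eval b' (_ + _)
    rw [map_add, map_add, hd _ i b b' h1 h2, dep_tpl c i _ b b' h1 h2]
  -- the gradients
  have hM : ∀ (ω : F.Ω) (i l : ℕ), ∃ M : ℝ, ∀ b : Option (Fin m) → ℝ,
      NBx c (G (ptr (F.cnd ζ) J ω)) g w (F.t ω) i b →
      |eval b (pderiv (some (c l)) (G (ptr (F.cnd ζ) J ω) i))| ≤ M := fun ω i l =>
    eval_bdd (hdG _) g w (F.t ω) i ((hdG _ i).pderiv l)
  choose M hM using hM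
  obtain ⟨e, he⟩ := pow_unbounded_of_one_lt (∑ ω : F.Ω, ∑ i ∈ Finset.range r,
    ∑ l ∈ Finset.range r, |M ω i l|) (by norm_num : (1 : ℝ) < 2)
  have hnear : ∀ ω, A ω → ∀ i < r, ∀ τ : ℝ, |τ - F.t ω| ≤ 1 / 2 ^ w →
      |(f (slam F w ω) i).eval τ - (itp K w (F.T1 w ω)
        fun n => (φ (ζ ω) i n : ℝ) / 2 ^ P i).eval τ| ≤ 1 / 2 ^ g i := by
    intro ω hω i hi τ hτ
    have h1 := hitp w (F.T1 w ω) (f (slam F w ω) i) (fun n => (φ (ζ ω) i n : ℝ) / 2 ^ P i)
      (1 / 2 ^ P i) (hf1 _ i) (fun n hn => ?_) τ ?_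
    · refine h1.trans ?_
      have h2 : C₀ * (1 / 2 ^ P i) ≤ 2 ^ C * (1 / 2 ^ P i) :=
        mul_le_mul_of_nonneg_right hC.le (by positivity)
      refine h2.trans ?_
      have h3 : (2 : ℝ) ^ (g i + C) ≤ 2 ^ P i := pow_le_pow_right₀ (by norm_num) (hg i hi)
      rw [mul_one_div, div_le_div_iff₀ (by positivity) (by positivity), one_mul, ← pow_add,
        add_comm C (g i)]
      exact h3
    · rw [hf2, hφ ω hω i hi n hn]
      obtain ⟨v, hv⟩ : ∃ v, v = hgt (F.l ω) (c i) (Q' (slam F w ω) i)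
        (((F.T1 w ω : ℝ) + n / (K + 1)) / 2 ^ w) := ⟨_, rfl⟩
      rw [← hv]
      have e1 : hgt (slam F w ω).1 (c i) (Q' (slam F w ω) i)
        (((F.T1 w ω : ℝ) + n / (K + 1)) / 2 ^ w) = v := hv.symm
      rw [e1]
      have h2P : (0 : ℝ) < 2 ^ P i := by positivity
      have h4 := Int.floor_le ((2 : ℝ) ^ P i * v)
      have h5 := Int.lt_floor_add_one ((2 : ℝ) ^ P i * v)
      rw [abs_le]
      constructor
      · have h6 : (⌊(2 : ℝ) ^ P i * v⌋ : ℝ) / 2 ^ P i ≤ v := by
          rw [div_le_iff₀' h2P]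
          exact h4
        have h7 : (0 : ℝ) ≤ 1 / 2 ^ P i := by positivity
        linarith
      · have h6 : v ≤ (⌊(2 : ℝ) ^ P i * v⌋ : ℝ) / 2 ^ P i + 1 / 2 ^ P i := by
          rw [← add_div, le_div_iff₀' h2P]
          exact h5.le
        linarith
    · have h2w : (0 : ℝ) < 2 ^ w := by positivity
      have h4 : F.T1 w ω ≤ 2 ^ w * F.t ω ∧ 2 ^ w * F.t ω ≤ F.T1 w ω + 1 := by
        unfold Fam.T1 Fam.t
        have e2 : (2 : ℝ) ^ J = 2 ^ w * ((2 ^ (J - w) : ℕ) : ℝ) := by
          push_cast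
          rw [← pow_add]
          congr 1
          omega
        have hN : 0 < 2 ^ (J - w) := by positivity
        have hNR : (0 : ℝ) < ((2 ^ (J - w) : ℕ) : ℝ) := by exact_mod_cast hN
        have e3 : (2 : ℝ) ^ w * ((F.T ω : ℝ) / 2 ^ J) = (F.T ω : ℝ) / ((2 ^ (J - w) : ℕ) : ℝ) := by
          rw [e2]
          field_simp
        rw [e3]
        constructor
        · rw [le_div_iff₀ hNR]
          exact_mod_cast Nat.div_mul_le_self (F.T ω) (2 ^ (J - w))
        · rw [div_le_iff₀ hNR]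
          have h7 := Nat.lt_div_mul_add (a := F.T ω) hN
          have h8 : F.T ω ≤ (F.T ω / 2 ^ (J - w) + 1) * 2 ^ (J - w) := by
            rw [Nat.add_mul, one_mul]
            exact h7.le
          exact_mod_cast h8
      have h5 := abs_le.1 hτ
      have h6 : |2 ^ w * τ - 2 ^ w * F.t ω| ≤ 1 := by
        rw [← mul_sub, abs_mul, abs_of_pos h2w]
        calc 2 ^ w * |τ - F.t ω| ≤ 2 ^ w * (1 / 2 ^ w) :=
              mul_le_mul_of_nonneg_left hτ h2w.le
          _ = 1 := by field_simp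
      have h7 := abs_le.1 h6
      rw [abs_le]
      constructor <;> linarith [h4.1, h4.2, h7.1, h7.2]
  have eG : ∀ (ω : F.Ω) (i : ℕ), G (ptr (F.cnd ζ) J ω) i = Q (ptr F J ω) i +
      tpl m (itp K w (F.T1 w ω) fun n => (φ (ζ ω) i n : ℝ) / 2 ^ P i) := by
    intro ω i
    rw [hGe]
    rfl
  have eH : ∀ (ω : F.Ω) (i : ℕ), H (slam (F.cnd ζ) w ω) i = Q' (slam F w ω) i +
      tpl m (f (slam F w ω) i) := by
    intro ω i
    rw [hHe]
    rfl
  refine ⟨e, G, H, fun y i => ?_, fun s i => ?_, hdG, fun s i => ?_, fun ω hω i hi => ?_,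
    fun ω hω i hi b hb => ?_, fun ω hω i hi b hb l hl => ?_⟩
  · rw [hGe]
    exact (totalDegree_add _ _).trans (max_le (hQ _ i) (deg_tpl (deg_itp _ _ _ _)))
  · rw [hHe]
    exact (totalDegree_add _ _).trans (max_le (hQ' _ i) (deg_tpl (hf1 _ _)))
  · intro b b' h1 h2
    rw [hHe]
    show eval b (_ + _) = eval b' (_ + _)
    rw [map_add, map_add, hd' _ i b b' h1 h2, dep_tpl c i _ b b' h1 h2]
  · rw [eG ω i]
    show |F.x ω (c i) - eval (bt F ω) _| ≤ _
    have h1 := hnear ω hω i hi (F.t ω) (by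
      rw [sub_self, abs_zero]
      positivity)
    rw [map_add, eval_tpl, hcl ω hω i hi, ← sub_sub, ← hgt_self]
    rw [hf2] at h1
    exact h1
  · rw [eG ω i, eH ω i, hcl ω hω i hi, map_add, map_add, eval_tpl, eval_tpl]
    have h1 := hnear ω hω i hi (b none) hb.1
    rw [abs_sub_comm] at h1
    have e1 : ∀ x y z : ℝ, (x + y) - (x + z) = y - z := fun x y z => by ring
    rw [e1]
    exact h1
  · refine (hM ω i l b hb).trans ?_
    have h1 : |M ω i l| ≤ ∑ ω : F.Ω, ∑ i ∈ Finset.range r, ∑ l ∈ Finset.range r, |M ω i l| := by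
      have h2 : |M ω i l| ≤ ∑ l ∈ Finset.range r, |M ω i l| :=
        Finset.single_le_sum (f := fun l => |M ω i l|) (fun _ _ => abs_nonneg _)
          (Finset.mem_range.2 (hl.trans hi))
      have h3 : ∑ l ∈ Finset.range r, |M ω i l| ≤
          ∑ i ∈ Finset.range r, ∑ l ∈ Finset.range r, |M ω i l| :=
        Finset.single_le_sum (f := fun i => ∑ l ∈ Finset.range r, |M ω i l|)
          (fun _ _ => Finset.sum_nonneg fun _ _ => abs_nonneg _) (Finset.mem_range.2 hi)
      have h4 : ∑ i ∈ Finset.range r, ∑ l ∈ Finset.range r, |M ω i l| ≤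
          ∑ ω : F.Ω, ∑ i ∈ Finset.range r, ∑ l ∈ Finset.range r, |M ω i l| :=
        Finset.single_le_sum (f := fun ω => ∑ i ∈ Finset.range r, ∑ l ∈ Finset.range r, |M ω i l|)
          (fun _ _ => Finset.sum_nonneg fun _ _ => Finset.sum_nonneg fun _ _ => abs_nonneg _)
          (Finset.mem_univ ω)
      exact h2.trans (h3.trans h4)
    refine (le_abs_self _).trans (h1.trans (he.le.trans ?_))
    exact pow_le_pow_right₀ (by norm_num) (Nat.le_add_right _ _)

end Pool.RTS
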