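import Pool.Agent.H29.REC.Num
import Pool.Agent.H29.REC.Low

/-!
# Visible digits

`Vis.dig I X wi`: the visible variable which shows, at the window `w` with `q` digits, the first
`q` digits after the point of the numbers `X i` with `wi i ≤ w`. It has no value for `q = 0`.

`Own V i K w q P`: the visible variable shows, to `P j` digits, the own heights over closed
polynomials at `K + 1` times of the window. `Own.tub`: then there are labels in tubes over all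
boxes; `TNum.le_own`: and the numbers are at least the precisions. `Own.of_dig`: the case of
`Vis.dig`.
-/

set_option autoImplicit false

namespace Pool.RTS

open Finset Real MvPolynomial
open Pool.Agent.H49.Ent Pool.Agent.H32.Dense Pool.STK Pool.KA Pool.KSAT Pool.K2S Pool.PB Pool.S6C
open Pool.GEN Pool.CHT
open Pool.CHB (Sid ChN.cnd_mono floor_div)
open Pool.LBT (LSys ThrOf fl_le')
open Pool.LBN (Tch lsys cof)
open Pool.LEV (Law)

variable {m J : ℕ}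

/-! ### Digits -/

/-- **Digits of real numbers**, each from its own window on. -/
noncomputable def Vis.dig {I : Type} (X : I → ∀ (J : ℕ) (F : Fam m J), F.Ω → ℝ)
    (wi : I → ℕ → ℕ) : Vis m where
  κ _ _ := I → ℤ
  z w q J F ω := fun i => if q = 0 ∨ w < wi i J then 0 else ⌊(2 : ℝ) ^ q * X i J F ω⌋
  nest := by
    intro w w' q q' J F hw _ hq _
    refine ⟨fun f i => if q = 0 ∨ w < wi i J then 0 else f i / 2 ^ (q' - q), fun ω => ?_⟩
    funext i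
    by_cases h : q = 0 ∨ w < wi i J
    · simp only [if_pos h]
    · have h' : ¬ (q' = 0 ∨ w' < wi i J) := by omega
      simp only [if_neg h, if_neg h']
      have h1 : (2 : ℝ) ^ q * X i J F ω = (2 ^ q' * X i J F ω) / ((2 ^ (q' - q) : ℕ) : ℝ) := by
        have : (2 : ℝ) ^ q' = 2 ^ q * 2 ^ (q' - q) := by
          rw [← pow_add]
          congr 1
          omega
        rw [this]
        push_cast
        field_simp
      rw [h1, Int.floor_div_natCast]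
      push_cast
      rfl

/-- It has one value for `q = 0`. -/
theorem Vis.dig_few {I : Type} (X : I → ∀ (J : ℕ) (F : Fam m J), F.Ω → ℝ)
    (wi : I → ℕ → ℕ) : (Vis.dig X wi).Few := by
  refine ⟨1, fun w J F => ?_⟩
  obtain ⟨s, hs⟩ : ∃ s : Finset (I → ℤ), s = {fun _ => 0} := ⟨_, rfl⟩
  have h1 : s.card ≤ 1 := by rw [hs, card_singleton]
  have h2 : ∀ ω, (Vis.dig X wi).z w 0 J F ω ∈ s := by
    intro ω
    rw [hs]
    refine mem_singleton.2 ?_
    funext i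
    show (if (0 : ℕ) = 0 ∨ w < wi i J then (0 : ℤ) else ⌊(2 : ℝ) ^ 0 * X i J F ω⌋) = 0
    exact if_pos (Or.inl rfl)
  exact ⟨s, h1, h2⟩

theorem Vis.dig_z {I : Type} (X : I → ∀ (J : ℕ) (F : Fam m J), F.Ω → ℝ) (wi : I → ℕ → ℕ)
    {w q : ℕ} {F : Fam m J} {i : I} (hq : q ≠ 0) (hw : wi i J ≤ w) (ω : F.Ω) :
    (Vis.dig X wi).z w q J F ω i = ⌊(2 : ℝ) ^ q * X i J F ω⌋ :=
  if_neg (by omega)

/-! ### The numbers are at least the precisions of the labels -/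

/-- The system of the labels of one chart. -/
noncomputable def tus1 (b : ℝ) (V : Vis m) (β : List (Fin m) × Fin m → ℝ → ℝ → ℝ)
    (i : List (Fin m) × Fin m) : TSys m where
  ι := Unit
  T _ := TuB b V β i
  her _ K w q P J F := TuB.her _ _ _ _ K w q P J F
  anti h := TuB.anti h
  mono hK hw hq _ _ h := TuB.mono hK hw hq h

variable {b : ℝ} {V : Vis m} {β : List (Fin m) × Fin m → ℝ → ℝ → ℝ} {S : PCl m}
  {i : List (Fin m) × Fin m} {R : ℝ → ℝ → ℝ}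

/-- **Labels bound the numbers from below.** -/
theorem TNum.ge (hR : TNum (TuB b V β i) S R) (hS : S.Ne) (w q : ℚ) (hw : w ≤ 1) (hq : q ≤ 1)
    {v : ℝ} (hv : v ≤ 1)
    (H : ∀ c : ℝ, 0 < c → c < v → ∃ K : ℕ, ∀ δ : ℝ, 0 < δ → Bas S (fun J F A =>
      ∃ B : F.Ω → Prop, Sub B A ∧ Real.exp (-(δ * J)) * Pe F.p A ≤ Pe F.p B ∧
        TuB b V β i K ⌊(w : ℝ) * J⌋₊ ⌊(q : ℝ) * J⌋₊ ⌊c * J⌋₊ J F B)) : v ≤ R w q := by
  have h : TThr (tus1 b V β i) S (fun _ => R) := TThr.of_num fun _ => hR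
  exact h.ge hS () w q hw hq hv H

/-! ### Own heights -/

/-- **The own heights over closed polynomials are visible**: `P j` digits of the height of the
coordinate `j` of the chain, at the `K + 1` times `(T_w + n / (K + 1)) / 2 ^ w`. -/
def Own (V : Vis m) (i : List (Fin m) × Fin m) (K w q : ℕ) (P : ℕ → ℕ) : Stat m := fun J F A =>
  ∃ (Q : PtT F → ℕ → MvPolynomial (Option (Fin m)) ℝ)
    (Q' : LnT F → ℕ → MvPolynomial (Option (Fin m)) ℝ) (φ : V.κ J F → ℕ → ℕ → ℤ),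
    (∀ y j, (Q y j).totalDegree ≤ K) ∧ (∀ s j, (Q' s j).totalDegree ≤ K) ∧
    (∀ y j, DepC (fun j => i.1.getD j i.2) j (Q y j)) ∧
    (∀ s j, DepC (fun j => i.1.getD j i.2) j (Q' s j)) ∧
    (∀ ω, A ω → ∀ j ≤ i.1.length, Q (ptr F J ω) j = Q' (slam F w ω) j) ∧
    ∀ ω, A ω → ∀ j ≤ i.1.length, ∀ n ≤ K, φ (V.z w q J F ω) j n =
      ⌊(2 : ℝ) ^ P j * hgt (F.l ω) (i.1.getD j i.2) (Q' (slam F w ω) j)
        (((F.T1 w ω : ℝ) + n / (K + 1)) / 2 ^ w)⌋

theorem Own.her {K w q : ℕ} {P : ℕ → ℕ} {F : Fam m J} : Hered (Own V i K w q P J F) := by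
  rintro A B hB ⟨Q, Q', φ, h1, h2, h3, h4, h5, h6⟩
  exact ⟨Q, Q', φ, h1, h2, h3, h4, fun ω hω => h5 ω (hB ω hω), fun ω hω => h6 ω (hB ω hω)⟩

/-- **Labels in tubes from digits of own heights**, over all sides. -/
theorem Own.tub (K : ℕ) (hK : 1 ≤ K) : ∃ C : ℕ, ∀ (m J : ℕ) (F : Fam m J) (A : F.Ω → Prop)
    (b : ℝ) (V : Vis m) (β : List (Fin m) × Fin m → ℝ → ℝ → ℝ) (i : List (Fin m) × Fin m)
    (x y : ℝ) (P : ℕ → ℕ) (P' : ℕ), 0 ≤ x → b ≤ x → 0 ≤ y → x + y ≤ 1 →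
    Own V i K ⌊x * J⌋₊ ⌊y * J⌋₊ P J F A → (∀ j ≤ i.1.length, C ≤ P j) →
    P' + C ≤ P i.1.length → P' ≤ J → TuB b V β i K ⌊x * J⌋₊ ⌊y * J⌋₊ P' J F A := by
  classical
  obtain ⟨C, hC⟩ := own_chn K hK
  refine ⟨C, fun m J F A b V β i x y P P' h1 h2 h3 h4 h5 h6 h7 h8 => ?_⟩
  obtain ⟨Q, Q', φ, k1, k2, k3, k4, k5, k6⟩ := h5
  obtain ⟨g, hg⟩ : ∃ g : ℕ → ℕ, g = fun j => if j < i.1.length then
    min J (min (P j - C) ⌊max 0 (β (i.1.take j, i.1.getD j i.2) (x + y) x * J - J / (K + 1))⌋₊)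
    else P' := ⟨_, rfl⟩
  have g1 : g i.1.length = P' := by
    rw [hg]
    exact if_neg (lt_irrefl _)
  have g2 : ∀ j < i.1.length, g j = min J (min (P j - C)
      ⌊max 0 (β (i.1.take j, i.1.getD j i.2) (x + y) x * J - J / (K + 1))⌋₊) := by
    intro j hj
    rw [hg]
    exact if_pos hj
  obtain ⟨e, he⟩ := hC m J F (fun j => i.1.getD j i.2) (i.1.length + 1) ⌊x * J⌋₊ g P A Q Q'
    (V.κ J F) (V.z ⌊x * J⌋₊ ⌊y * J⌋₊ J F) φ (fl_le' (by linarith) J) k1 k2 k3 k4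
    (fun ω hω j hj => k5 ω hω j (by omega)) (fun ω hω j hj => k6 ω hω j (by omega)) (by
      intro j hj
      rcases Nat.lt_succ_iff_lt_or_eq.1 hj with h9 | h9
      · have h10 := h6 j h9.le
        have h11 : g j ≤ P j - C := by
          rw [g2 j h9]
          exact (min_le_right _ _).trans (min_le_left _ _)
        omega
      · rw [h9, g1]
        exact h7)
  refine ⟨x, y, e, g, h1, h2, h3, h4, le_rfl, le_rfl, g1.ge, fun j hj => ?_, fun j hj => ?_, he⟩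
  · rcases hj.lt_or_eq with h9 | h9
    · rw [g2 j h9]
      exact min_le_left _ _
    · rw [h9, g1]
      exact h8
  · rw [g2 j hj]
    have h9 : ((min J (min (P j - C) ⌊max 0 (β (i.1.take j, i.1.getD j i.2) (x + y) x * J -
        J / (K + 1))⌋₊) : ℕ) : ℝ) ≤ (⌊max 0 (β (i.1.take j, i.1.getD j i.2) (x + y) x * J -
        J / (K + 1))⌋₊ : ℝ) := by
      exact_mod_cast (min_le_right _ _).trans (min_le_right _ _)
    exact h9.trans (Nat.floor_le (le_max_left _ _))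

/-- **The numbers are at least the precisions to which the own heights are visible.** -/
theorem TNum.le_own (hR : TNum (TuB b V β i) S R) (hS : S.Ne) (w q : ℚ) (hw : 0 ≤ w)
    (hb : b ≤ w) (hq : 0 ≤ q) (h1 : w + q ≤ 1) {v c₀ : ℝ} (hc₀ : 0 < c₀) (hv : v ≤ 1)
    (H : ∀ c : ℝ, 0 < c → c < v → ∃ K : ℕ, 1 ≤ K ∧ ∀ δ : ℝ, 0 < δ → Bas S (fun J F A =>
      ∃ (B : F.Ω → Prop) (P : ℕ → ℕ), Sub B A ∧ Real.exp (-(δ * J)) * Pe F.p A ≤ Pe F.p B ∧
        (∀ j ≤ i.1.length, ⌊c₀ * J⌋₊ ≤ P j) ∧ ⌊c * J⌋₊ ≤ P i.1.length ∧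
        Own V i K ⌊(w : ℝ) * J⌋₊ ⌊(q : ℝ) * J⌋₊ P J F B)) : v ≤ R w q := by
  have hwR : (0 : ℝ) ≤ w := by exact_mod_cast hw
  have hqR : (0 : ℝ) ≤ q := by exact_mod_cast hq
  have h1R : (w : ℝ) + q ≤ 1 := by exact_mod_cast h1
  refine hR.ge hS w q (by linarith) (by linarith) hv fun c hc hcv => ?_
  obtain ⟨c', hc'⟩ : ∃ c', c' = (c + v) / 2 := ⟨_, rfl⟩
  obtain ⟨K, hK, hB⟩ := H c' (by rw [hc']; linarith) (by rw [hc']; linarith)
  obtain ⟨C, hC⟩ := Own.tub K hK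
  refine ⟨K, fun δ hδ => ?_⟩
  obtain ⟨J₁, hJ₁⟩ := exists_nat_ge ((C + 1) / (c' - c))
  obtain ⟨J₂, hJ₂⟩ := exists_nat_ge ((C + 1) / c₀)
  refine Bas.mono (max J₁ J₂) (hB δ hδ) ?_
  rintro J hJ F A ⟨B, P, k1, k2, k3, k4, k5⟩
  have hcc : 0 < c' - c := by rw [hc']; linarith
  have j1 : (J₁ : ℝ) ≤ J := by exact_mod_cast (le_max_left _ _).trans hJ
  have j2 : (J₂ : ℝ) ≤ J := by exact_mod_cast (le_max_right _ _).trans hJ
  have hJ0 : (0 : ℝ) ≤ J := Nat.cast_nonneg J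
  refine ⟨B, k1, k2, hC m J F B b V β i w q P ⌊c * J⌋₊ hwR hb hqR h1R k5 (fun j hj => ?_) ?_ ?_⟩
  · refine le_trans (Nat.le_floor ?_) (k3 j hj)
    have h2 := hJ₂.trans j2
    rw [div_le_iff₀ hc₀] at h2
    linarith
  · refine le_trans (Nat.le_floor ?_) k4
    push_cast
    have h2 := hJ₁.trans j1
    rw [div_le_iff₀ hcc] at h2
    have h3 := Nat.floor_le (mul_nonneg hc.le hJ0)
    linarith
  · exact fl_le' (by linarith) J

/-- **The case of digits**: for every coordinate `j` of the chain and every time `n` there is an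
index `ι j n` of the visible variable whose number is `2 ^ (g j)` times the own height. -/
theorem Own.of_dig {I : Type} {X : I → ∀ (J : ℕ) (F : Fam m J), F.Ω → ℝ} {wi : I → ℕ → ℕ}
    {K w q : ℕ} {F : Fam m J} {A : F.Ω → Prop} {g : ℕ → ℕ} {ι : ℕ → ℕ → I}
    {Q : PtT F → ℕ → MvPolynomial (Option (Fin m)) ℝ}
    {Q' : LnT F → ℕ → MvPolynomial (Option (Fin m)) ℝ} (hq : q ≠ 0)
    (hw : ∀ j ≤ i.1.length, ∀ n ≤ K, wi (ι j n) J ≤ w)
    (h1 : ∀ y j, (Q y j).totalDegree ≤ K) (h2 : ∀ s j, (Q' s j).totalDegree ≤ K)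
    (h3 : ∀ y j, DepC (fun j => i.1.getD j i.2) j (Q y j))
    (h4 : ∀ s j, DepC (fun j => i.1.getD j i.2) j (Q' s j))
    (h5 : ∀ ω, A ω → ∀ j ≤ i.1.length, Q (ptr F J ω) j = Q' (slam F w ω) j)
    (h6 : ∀ ω, A ω → ∀ j ≤ i.1.length, ∀ n ≤ K, X (ι j n) J F ω =
      (2 : ℝ) ^ g j * hgt (F.l ω) (i.1.getD j i.2) (Q' (slam F w ω) j)
        (((F.T1 w ω : ℝ) + n / (K + 1)) / 2 ^ w)) :
    Own (Vis.dig X wi) i K w q (fun j => g j + q) J F A := by
  refine ⟨Q, Q', fun f j n => f (ι j n), h1, h2, h3, h4, h5, fun ω hω j hj n hn => ?_⟩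
  show (Vis.dig X wi).z w q J F ω (ι j n) = _
  rw [Vis.dig_z X wi hq (hw j hj n hn), h6 ω hω j hj n hn, ← mul_assoc, ← pow_add, add_comm q]

end Pool.RTS
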