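import Pool.Agent.H76.GN.Lev

/-!
# The levels of the natural boxes: the envelope

`R w q`: an increasing function of the window and of the number of visible digits of the path, with
`R w q ≥ g w + q`, where `g a = R a 0` is the diagonal. `rcs R w q`: the largest function below `R`
with slope at least one in `q`. `env R a w`: the smallest value of `rcs R w' (a - w')` for
`w ≤ w' ≤ a`. It has the laws `Pool.LEV.Law`, the diagonal `g`, and it is between `g w + (a - w)`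
and `g a`.
-/

set_option autoImplicit false

namespace Pool.RTS

open Pool.LEV (Law)

/-- The values whose infimum is `rcs R w q`. -/
def rset' (R : ℝ → ℝ → ℝ) (w q : ℝ) : Set ℝ :=
  {y | y = 1 ∨ ∃ v, 0 ≤ v ∧ w + q + v ≤ 1 ∧ R w (q + v) < 1 ∧ y = R w (q + v) - v}

/-- The largest function below `R` with slope at least one in `q`. -/
noncomputable def rcs (R : ℝ → ℝ → ℝ) (w q : ℝ) : ℝ := sInf (rset' R w q)

/-- The values whose infimum is `env R a w`. -/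
def eset (R : ℝ → ℝ → ℝ) (a w : ℝ) : Set ℝ :=
  {y | ∃ w', w ≤ w' ∧ w' ≤ a ∧ y = rcs R w' (a - w')}

/-- **The envelope.** -/
noncomputable def env (R : ℝ → ℝ → ℝ) (a w : ℝ) : ℝ := sInf (eset R a w)

/-- The properties of the numbers `R w q`, with the diagonal `g`. -/
structure RDat (R : ℝ → ℝ → ℝ) (g : ℝ → ℝ) : Prop where
  mono : ∀ {w w' q q' : ℝ}, 0 ≤ w → w ≤ w' → 0 ≤ q → q ≤ q' → w' + q' ≤ 1 → R w q ≤ R w' q'
  up : ∀ {w q : ℝ}, 0 ≤ w → 0 ≤ q → w + q ≤ 1 → R w q ≤ 1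
  low : ∀ {w q : ℝ}, 0 ≤ w → 0 ≤ q → w + q ≤ 1 → min 1 (g w + q) ≤ R w q
  diag : ∀ {a : ℝ}, 0 ≤ a → a ≤ 1 → R a 0 = g a
  gsl : ∀ {w v : ℝ}, 0 ≤ w → 0 ≤ v → w + v ≤ 1 → min 1 (g w + v) ≤ g (w + v)
  glow : ∀ {w : ℝ}, 0 ≤ w → w ≤ 1 → w ≤ g w

variable {R : ℝ → ℝ → ℝ} {g : ℝ → ℝ}

namespace RDat

theorem rbdd (h : RDat R g) {w q : ℝ} (hw : 0 ≤ w) (hq : 0 ≤ q) :
    ∀ y ∈ rset' R w q, min 1 (g w + q) ≤ y := by
  rintro y (rfl | ⟨v, h1, h2, h3, rfl⟩)
  · exact min_le_left _ _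
  · have h4 := h.low hw (by linarith : 0 ≤ q + v) (by linarith)
    rcases min_le_iff.1 h4 with h5 | h5
    · linarith
    · exact (min_le_right _ _).trans (by linarith)

theorem rbddBelow (h : RDat R g) {w q : ℝ} (hw : 0 ≤ w) (hq : 0 ≤ q) :
    BddBelow (rset' R w q) := ⟨_, fun y hy => h.rbdd hw hq y hy⟩

theorem rne (R : ℝ → ℝ → ℝ) (w q : ℝ) : (rset' R w q).Nonempty := ⟨1, Or.inl rfl⟩

/-- The lower bound. -/
theorem le_rcs (h : RDat R g) {w q : ℝ} (hw : 0 ≤ w) (hq : 0 ≤ q) :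
    min 1 (g w + q) ≤ rcs R w q := le_csInf (rne R w q) (h.rbdd hw hq)

theorem rcs_le_one (h : RDat R g) {w q : ℝ} (hw : 0 ≤ w) (hq : 0 ≤ q) : rcs R w q ≤ 1 :=
  csInf_le (h.rbddBelow hw hq) (Or.inl rfl)

theorem rcs_le (h : RDat R g) {w q : ℝ} (hw : 0 ≤ w) (hq : 0 ≤ q) (h1 : w + q ≤ 1) :
    rcs R w q ≤ R w q := by
  rcases (h.up hw hq h1).lt_or_eq with h2 | h2
  · exact csInf_le (h.rbddBelow hw hq) (Or.inr ⟨0, le_rfl, by linarith, by rwa [add_zero],
      by rw [add_zero, sub_zero]⟩)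
  · rw [h2]
    exact h.rcs_le_one hw hq

/-- The slope in `q`. -/
theorem rcs_slope (h : RDat R g) {w q v : ℝ} (hw : 0 ≤ w) (hq : 0 ≤ q) (hv : 0 ≤ v) :
    min 1 (rcs R w q + v) ≤ rcs R w (q + v) := by
  refine le_csInf (rne R w _) ?_
  rintro y (rfl | ⟨u, h1, h2, h3, rfl⟩)
  · exact min_le_left _ _
  · have h4 : rcs R w q ≤ R w (q + (v + u)) - (v + u) :=
      csInf_le (h.rbddBelow hw hq) (Or.inr ⟨v + u, by linarith, by linarith, by
        rwa [← add_assoc], rfl⟩)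
    refine (min_le_right _ _).trans ?_
    rw [← add_assoc] at h4
    linarith

theorem rcs_mono_q (h : RDat R g) {w q q' : ℝ} (hw : 0 ≤ w) (hq : 0 ≤ q) (hqq : q ≤ q') :
    rcs R w q ≤ rcs R w q' := by
  have h1 := h.rcs_slope hw hq (sub_nonneg.2 hqq)
  rw [add_sub_cancel] at h1
  exact (le_min (h.rcs_le_one hw hq) (by linarith)).trans h1

theorem rcs_mono_w (h : RDat R g) {w w' q : ℝ} (hw : 0 ≤ w) (hww : w ≤ w') (hq : 0 ≤ q) :
    rcs R w q ≤ rcs R w' q := by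
  refine le_csInf (rne R w' q) ?_
  rintro y (rfl | ⟨u, h1, h2, h3, rfl⟩)
  · exact h.rcs_le_one hw hq
  · have h5 := h.mono hw hww (by linarith : 0 ≤ q + u) le_rfl (by linarith)
    have h4 : rcs R w q ≤ R w (q + u) - u :=
      csInf_le (h.rbddBelow hw hq) (Or.inr ⟨u, h1, by linarith, by linarith, rfl⟩)
    linarith

/-- The diagonal. -/
theorem rcs_diag (h : RDat R g) {a : ℝ} (ha : 0 ≤ a) (ha1 : a ≤ 1) : rcs R a 0 = g a := by
  have h1 := h.diag ha ha1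
  have h2 := h.rcs_le ha le_rfl (by linarith : a + 0 ≤ 1)
  have h3 := h.le_rcs (q := 0) ha le_rfl
  have h4 := h.up ha le_rfl (by linarith : a + 0 ≤ 1)
  rw [h1] at h2 h4
  rw [add_zero, min_eq_right h4] at h3
  exact le_antisymm h2 h3

theorem g_le_one (h : RDat R g) {a : ℝ} (ha : 0 ≤ a) (ha1 : a ≤ 1) : g a ≤ 1 := by
  have h4 := h.up ha le_rfl (by linarith : a + 0 ≤ 1)
  rwa [h.diag ha ha1] at h4

/-! ### The envelope -/

/-- The lower bound. -/
theorem ebdd (h : RDat R g) {a w : ℝ} (hw : 0 ≤ w) (ha : a ≤ 1) :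
    ∀ y ∈ eset R a w, min 1 (g w + (a - w)) ≤ y := by
  rintro y ⟨w', h1, h2, rfl⟩
  have h3 := h.le_rcs (q := a - w') (hw.trans h1) (by linarith)
  have h4 := h.gsl hw (sub_nonneg.2 h1) (by linarith)
  rw [add_sub_cancel] at h4
  refine le_trans ?_ h3
  refine le_min (min_le_left _ _) ?_
  rcases min_le_iff.1 h4 with h5 | h5
  · refine (min_le_left _ _).trans ?_
    linarith
  · refine (min_le_right _ _).trans ?_
    linarith

theorem ebddBelow (h : RDat R g) {a w : ℝ} (hw : 0 ≤ w) (ha : a ≤ 1) : BddBelow (eset R a w) :=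
  ⟨_, fun y hy => h.ebdd hw ha y hy⟩

theorem ene (R : ℝ → ℝ → ℝ) {a w : ℝ} (hwa : w ≤ a) : (eset R a w).Nonempty :=
  ⟨_, w, le_rfl, hwa, rfl⟩

theorem env_le (h : RDat R g) {a w w' : ℝ} (hw : 0 ≤ w) (hww : w ≤ w') (hwa : w' ≤ a)
    (ha : a ≤ 1) : env R a w ≤ rcs R w' (a - w') :=
  csInf_le (h.ebddBelow hw ha) ⟨w', hww, hwa, rfl⟩

/-- The envelope is below the numbers at the same radius. -/
theorem env_le_R (h : RDat R g) {a w w' : ℝ} (hw : 0 ≤ w) (hww : w ≤ w') (hwa : w' ≤ a)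
    (ha : a ≤ 1) : env R a w ≤ R w' (a - w') :=
  (h.env_le hw hww hwa ha).trans (h.rcs_le (hw.trans hww) (by linarith) (by linarith))

theorem env_low (h : RDat R g) {a w : ℝ} (hw : 0 ≤ w) (hwa : w ≤ a) (ha : a ≤ 1) :
    min 1 (g w + (a - w)) ≤ env R a w := le_csInf (ene R hwa) (h.ebdd hw ha)

theorem env_up (h : RDat R g) {a w : ℝ} (hw : 0 ≤ w) (hwa : w ≤ a) (ha : a ≤ 1) :
    env R a w ≤ g a := by
  have h1 := h.env_le hw hwa le_rfl ha
  rwa [sub_self, h.rcs_diag (hw.trans hwa) ha] at h1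

theorem env_le_one (h : RDat R g) {a w : ℝ} (hw : 0 ≤ w) (hwa : w ≤ a) (ha : a ≤ 1) :
    env R a w ≤ 1 := (h.env_up hw hwa ha).trans (h.g_le_one (hw.trans hwa) ha)

theorem le_env (h : RDat R g) {a w : ℝ} (hw : 0 ≤ w) (hwa : w ≤ a) (ha : a ≤ 1) :
    a ≤ env R a w := by
  refine le_trans (le_min ha ?_) (h.env_low hw hwa ha)
  have := h.glow hw (hwa.trans ha)
  linarith

/-- **The diagonal of the envelope.** -/
theorem env_diag (h : RDat R g) {a : ℝ} (ha0 : 0 ≤ a) (ha : a ≤ 1) : env R a a = g a := by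
  have e : eset R a a = {rcs R a 0} := by
    ext y
    constructor
    · rintro ⟨w', h1, h2, rfl⟩
      have : w' = a := le_antisymm h2 h1
      rw [this, sub_self]
      rfl
    · rintro rfl
      exact ⟨a, le_rfl, le_rfl, by rw [sub_self]⟩
  unfold env
  rw [e, csInf_singleton]
  exact h.rcs_diag ha0 ha

theorem env_mono_w (h : RDat R g) {a w w' : ℝ} (hw : 0 ≤ w) (hww : w ≤ w') (hwa : w' ≤ a)
    (ha : a ≤ 1) : env R a w ≤ env R a w' := by
  refine csInf_le_csInf (h.ebddBelow hw ha) (ene R hwa) ?_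
  rintro y ⟨x, h1, h2, rfl⟩
  exact ⟨x, hww.trans h1, h2, rfl⟩

/-- **The slope of the envelope.** -/
theorem env_slope (h : RDat R g) {a w v : ℝ} (hw : 0 ≤ w) (hwa : w ≤ a) (hv : 0 ≤ v)
    (ha : a + v ≤ 1) : min 1 (env R a w + v) ≤ env R (a + v) w := by
  refine le_csInf (ene R (by linarith)) ?_
  rintro y ⟨w', h1, h2, rfl⟩
  rcases le_or_gt w' a with h3 | h3
  · have h4 := h.env_le hw h1 h3 (by linarith)
    have h5 := h.rcs_slope (w := w') (q := a - w') (v := v) (hw.trans h1) (by linarith) hv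
    have e : a - w' + v = a + v - w' := by ring
    rw [e] at h5
    refine le_trans ?_ h5
    exact min_le_min_left _ (by linarith)
  · have h4 := h.le_rcs (w := w') (q := a + v - w') (hw.trans h1) (by linarith)
    have h5 := h.gsl (w := a) (v := w' - a) (hw.trans hwa) (by linarith) (by linarith)
    rw [add_sub_cancel] at h5
    have h6 := h.env_up hw hwa (by linarith)
    refine le_trans (le_min (min_le_left _ _) ?_) h4
    rcases min_le_iff.1 h5 with h7 | h7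
    · refine (min_le_left _ _).trans ?_
      linarith
    · refine (min_le_right _ _).trans ?_
      linarith

theorem env_mono_a (h : RDat R g) {a a' w : ℝ} (hw : 0 ≤ w) (hwa : w ≤ a) (haa : a ≤ a')
    (ha : a' ≤ 1) : env R a w ≤ env R a' w := by
  have h1 := h.env_slope hw hwa (sub_nonneg.2 haa) (by linarith)
  rw [add_sub_cancel] at h1
  exact (le_min (h.env_le_one hw hwa (haa.trans ha)) (by linarith)).trans h1

/-- **The laws of the envelope.** -/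
theorem env_law (h : RDat R g) : Law (env R) where
  mono_a := fun _ _ _ h0 h1 h2 h3 => h.env_mono_a h0 h1 h2 h3
  mono_w := fun _ _ _ h0 h1 h2 h3 => h.env_mono_w h0 h1 h2 h3
  slope := fun _ _ _ h0 h1 h2 h3 => h.env_slope h0 h1 h2 h3

/-- **The chart `(w, q)`.** -/
theorem env_mono2 (h : RDat R g) {w w' q q' : ℝ} (hw : 0 ≤ w) (hww : w ≤ w') (hq : 0 ≤ q)
    (hqq : q ≤ q') (h1 : w' + q' ≤ 1) : env R (w + q) w ≤ env R (w' + q') w' :=
  (h.env_mono_a hw (by linarith) (by linarith : w + q ≤ w' + q') h1).trans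
    (h.env_mono_w hw hww (by linarith) h1)

/-- The slope in `q`, in the chart `(w, q)`. -/
theorem env_slope_q (h : RDat R g) {w q v : ℝ} (hw : 0 ≤ w) (hq : 0 ≤ q) (hv : 0 ≤ v)
    (h1 : w + q + v ≤ 1) : min 1 (env R (w + q) w + v) ≤ env R (w + (q + v)) w := by
  have := h.env_slope hw (by linarith : w ≤ w + q) hv h1
  rwa [add_assoc] at this

/-- Between the diagonals, in the chart `(w, q)`. -/
theorem env_between (h : RDat R g) {w q : ℝ} (hw : 0 ≤ w) (hq : 0 ≤ q) (h1 : w + q ≤ 1) :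
    min 1 (g w + q) ≤ env R (w + q) w ∧ env R (w + q) w ≤ g (w + q) := by
  refine ⟨?_, h.env_up hw (by linarith) h1⟩
  have := h.env_low hw (by linarith : w ≤ w + q) h1
  rwa [add_sub_cancel_left] at this

end RDat

/-! ### Numbers for windows shorter than `2 ^ (-b)` and at most `c` digits -/

/-- The numbers `R w q` for `w ≥ b` and `q ≤ c`, not less than the trivial numbers `g w + q`. They
are `1` for `q > c`. -/
noncomputable def rmx (b c : ℝ) (g : ℝ → ℝ) (R : ℝ → ℝ → ℝ) (w q : ℝ) : ℝ :=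
  if c < q then 1 else if w < b then min 1 (g w + q) else max (R w q) (min 1 (g w + q))

theorem le_rmx (b c : ℝ) (g : ℝ → ℝ) (R : ℝ → ℝ → ℝ) (w q : ℝ) :
    min 1 (g w + q) ≤ rmx b c g R w q := by
  unfold rmx
  split_ifs
  · exact min_le_left _ _
  · exact le_rfl
  · exact le_max_right _ _

theorem rmx_gt {b c : ℝ} {w q : ℝ} (h : c < q) (g : ℝ → ℝ) (R : ℝ → ℝ → ℝ) :
    rmx b c g R w q = 1 := if_pos h

theorem rmx_lt {b c : ℝ} {w q : ℝ} (h : w < b) (hq : q ≤ c) (g : ℝ → ℝ) (R : ℝ → ℝ → ℝ) :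
    rmx b c g R w q = min 1 (g w + q) := by
  unfold rmx
  rw [if_neg (not_lt.2 hq), if_pos h]

theorem rmx_ge {b c : ℝ} {w q : ℝ} (h : b ≤ w) (hq : q ≤ c) (g : ℝ → ℝ) (R : ℝ → ℝ → ℝ) :
    rmx b c g R w q = max (R w q) (min 1 (g w + q)) := by
  unfold rmx
  rw [if_neg (not_lt.2 hq), if_neg (not_lt.2 h)]

/-- If the numbers `R w q` are not much less than the trivial numbers, they are not changed. -/
theorem rmx_le {b c : ℝ} {w q e : ℝ} (h : b ≤ w) (hq : q ≤ c) {g : ℝ → ℝ} {R : ℝ → ℝ → ℝ}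
    (he : 0 ≤ e) (h1 : min 1 (g w + q) ≤ R w q + e) : rmx b c g R w q ≤ R w q + e := by
  rw [rmx_ge h hq]
  exact max_le (by linarith) h1

/-- **The data of the envelope.** -/
theorem rdat_rmx {b c : ℝ} (hc : 0 ≤ c) {g : ℝ → ℝ} {R : ℝ → ℝ → ℝ}
    (mono : ∀ {w w' q q' : ℝ}, b ≤ w → w ≤ w' → 0 ≤ q → q ≤ q' → w' + q' ≤ 1 → R w q ≤ R w' q')
    (up : ∀ {w q : ℝ}, b ≤ w → 0 ≤ q → w + q ≤ 1 → R w q ≤ 1)
    (dia : ∀ {a : ℝ}, 0 ≤ a → b ≤ a → a ≤ 1 → R a 0 ≤ g a)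
    (gmo : ∀ {a a' : ℝ}, 0 ≤ a → a ≤ a' → a' ≤ 1 → g a ≤ g a')
    (gup : ∀ {a : ℝ}, 0 ≤ a → a ≤ 1 → g a ≤ 1)
    (gsl : ∀ {w v : ℝ}, 0 ≤ w → 0 ≤ v → w + v ≤ 1 → min 1 (g w + v) ≤ g (w + v))
    (glow : ∀ {w : ℝ}, 0 ≤ w → w ≤ 1 → w ≤ g w) : RDat (rmx b c g R) g := by
  have up' : ∀ {w q : ℝ}, 0 ≤ w → 0 ≤ q → w + q ≤ 1 → rmx b c g R w q ≤ 1 := by
    intro w q h0 h1 h2
    rcases lt_or_ge c q with h5 | h5
    · exact (rmx_gt h5 g R).le
    · rcases lt_or_ge w b with h6 | h6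
      · rw [rmx_lt h6 h5]
        exact min_le_left _ _
      · rw [rmx_ge h6 h5]
        exact max_le (up h6 h1 h2) (min_le_left _ _)
  refine ⟨?_, up', fun _ _ _ => le_rmx b c g R _ _, ?_, gsl, glow⟩
  · intro w w' q q' h0 h1 h2 h3 h4
    have h5 : min 1 (g w + q) ≤ min 1 (g w' + q') :=
      min_le_min_left _ (add_le_add (gmo h0 h1 (by linarith)) h3)
    rcases lt_or_ge c q' with h7 | h7
    · rw [rmx_gt h7]
      exact up' h0 h2 (by linarith)
    · rcases lt_or_ge w b with h6 | h6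
      · rw [rmx_lt h6 (h3.trans h7)]
        exact h5.trans (le_rmx b c g R w' q')
      · rw [rmx_ge h6 (h3.trans h7), rmx_ge (h6.trans h1) h7]
        exact max_le_max (mono h6 h1 h2 h3 h4) h5
  · intro a h0 h1
    have e0 : min 1 (g a + 0) = g a := by
      rw [add_zero]
      exact min_eq_right (gup h0 h1)
    rcases lt_or_ge a b with h6 | h6
    · rw [rmx_lt h6 hc, e0]
    · rw [rmx_ge h6 hc, e0]
      exact max_eq_right (dia h0 h6 h1)

/-- **The data of the envelope over a two-sided threshold.** -/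
theorem rdat_law {b c : ℝ} (hc : 0 ≤ c) {P : ℝ → ℝ → ℝ} {R : ℝ → ℝ → ℝ} (hP : Law P)
    (hlow : ∀ a w : ℝ, 0 ≤ w → w ≤ a → a ≤ 1 → a ≤ P a w)
    (hup : ∀ a w : ℝ, 0 ≤ w → w ≤ a → a ≤ 1 → P a w ≤ 1)
    (mono : ∀ {w w' q q' : ℝ}, w ≤ w' → q ≤ q' → R w q ≤ R w' q') (up : ∀ w q : ℝ, R w q ≤ 1)
    (dia : ∀ {a : ℝ}, 0 ≤ a → b ≤ a → a ≤ 1 → R a 0 ≤ P a a) :
    RDat (rmx b c (fun a => P a a) R) (fun a => P a a) := by
  refine rdat_rmx hc (fun _ h1 _ h3 _ => mono h1 h3) (fun _ _ _ => up _ _) dia ?_ ?_ ?_ ?_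
  · intro a a' h0 h1 h2
    exact hP.mono h0 le_rfl h1 h1 le_rfl h2
  · intro a h0 h1
    exact hup a a h0 le_rfl h1
  · intro w v h0 h1 h2
    refine (hP.slope w w v h0 le_rfl h1 h2).trans ?_
    exact hP.mono_w (w + v) w (w + v) h0 (by linarith) le_rfl h2
  · intro w h0 h1
    exact hlow w w h0 le_rfl h1

/-! ### The envelope is local -/

/-- **The envelope with at most `c` digits is at most the value at `q ≤ c` digits**, up to the
slope: `β (w + q) w ≤ R w (q + v) - v`. -/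
theorem RDat.env_le_v {R : ℝ → ℝ → ℝ} {g : ℝ → ℝ} (h : RDat R g) {w q v : ℝ} (hw : 0 ≤ w)
    (hq : 0 ≤ q) (hv : 0 ≤ v) (h1 : w + q + v ≤ 1) :
    env R (w + q) w ≤ max (R w (q + v) - v) (min 1 (g (w + q))) := by
  rcases lt_or_ge (R w (q + v)) 1 with h2 | h2
  · refine le_trans ?_ (le_max_left _ _)
    refine (h.env_le hw le_rfl (by linarith) (by linarith)).trans ?_
    rw [add_sub_cancel_left]
    exact csInf_le (h.rbddBelow hw hq) (Or.inr ⟨v, hv, h1, h2, rfl⟩)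
  · refine le_trans ?_ (le_max_right _ _)
    refine le_min (h.env_le_one hw (by linarith) (by linarith)) ?_
    exact h.env_up hw (by linarith) (by linarith)

end Pool.RTS
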