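import Pool.Agent.H29.REC.Tub

/-!
# The chains behind the numbers of the labels in tubes

`TNum.att_ch`: at every real point `(w, q)` there is a chain of labels in tubes whose target has a
precision near the number, over sides at least `2 ^ (-β)` at any larger point. `TNum.no_ch`: at a
rational point no chain of smaller windows and fewer digits, over sides at least `2 ^ (-β)`, has a
better target. `Nums`: all of this for one subclass (`nums`).
-/

set_option autoImplicit false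

namespace Pool.RTS

open Finset Real MvPolynomial
open Pool.Agent.H49.Ent Pool.Agent.H32.Dense Pool.STK Pool.KA Pool.KSAT Pool.K2S Pool.PB Pool.S6C
open Pool.GEN Pool.CHT
open Pool.CHB (Sid ChN.cnd_mono floor_div)
open Pool.LBT (LSys ThrOf fl_le')
open Pool.LBN (Tch lsys cof)
open Pool.LEV (Law)

variable {m : ℕ} {b : ℝ} {V : Vis m} {β : List (Fin m) × Fin m → ℝ → ℝ → ℝ} {S : PCl m}
  {i : List (Fin m) × Fin m} {R : ℝ → ℝ → ℝ}

/-- **A chain of labels in a tube**: target `i.2`, base `i.1`, window `2 ^ (-w)`, visible from the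
point and from `q` digits, sides `2 ^ (-g j)`. -/
def TCh (V : Vis m) (i : List (Fin m) × Fin m) (K : ℕ → ℕ) (w q e : ℕ) (g : ℕ → ℕ) : Stat m :=
  fun J F A => ChN (F.cnd (V.z w q J F)) (fun j => i.1.getD j i.2) (i.1.length + 1) K w w e g A

theorem TCh.her {K : ℕ → ℕ} {w q e : ℕ} {g : ℕ → ℕ} {J : ℕ} {F : Fam m J} :
    Hered (TCh V i K w q e g J F) :=
  fun A B hB h => ChN.hered (F.cnd (V.z w q J F)) _ _ _ _ _ _ _ A B hB h

/-- Longer windows, more digits. -/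
theorem TCh.mono {K K' : ℕ → ℕ} {w w' q q' e e' : ℕ} {g : ℕ → ℕ} {J : ℕ} {F : Fam m J}
    {A : F.Ω → Prop} (hK : ∀ j ≤ i.1.length, K j ≤ K' j) (hw : w ≤ w') (hw' : w' ≤ J)
    (hq : q ≤ q') (hq' : q' ≤ J) (he : e ≤ e') (h : TCh V i K w q e g J F A) :
    TCh V i K' w' q' e' g J F A := by
  obtain ⟨φ, hφ⟩ := V.nest F hw hw' hq hq'
  have h1 : ChN (F.cnd (V.z w q J F)) (fun j => i.1.getD j i.2) (i.1.length + 1) K' w' w' e' g A :=
    ChN.mono h le_rfl (fun j hj => hK j (by omega)) hw hw hw' he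
  exact ChN.cnd_mono φ (fun ω _ => hφ ω) h1

/-- **Attained.** -/
theorem TNum.att_ch (hR : TNum (TuB b V β i) S R)
    (hβ : ∀ j < i.1.length, ∀ a a' w w' : ℝ, 0 ≤ w → w ≤ a → a ≤ a' → w ≤ w' → w' ≤ a' →
      a' ≤ 1 → β (i.1.take j, i.1.getD j i.2) a w ≤ β (i.1.take j, i.1.getD j i.2) a' w')
    {w q w' q' h : ℝ} (hw : 0 ≤ w) (hq : 0 ≤ q) (hww : w < w') (hqq : q < q')
    (h1 : w' + q' ≤ 1) (hh : 0 < h) (hhR : h < R w q) : ∃ K : ℕ,
    Bas S (fun J F A => ∃ (e : ℕ) (g : ℕ → ℕ), b ≤ w' ∧ ⌊(R w q - h) * J⌋₊ ≤ g i.1.length ∧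
      (∀ j ≤ i.1.length, g j ≤ J) ∧ Sid β i K (w' + q') w' J g ∧
      TCh V i (fun _ => K) ⌊w * J⌋₊ ⌊q * J⌋₊ e g J F A) := by
  obtain ⟨K, hK⟩ := hR.att w q h (by linarith) (by linarith) hh hhR
  obtain ⟨J₀, hJ₀⟩ := exists_nat_ge (max (1 / (w' - w)) (1 / (q' - q)))
  refine ⟨K, Bas.mono (J₀ + 1) hK ?_⟩
  rintro J hJ F A ⟨x, y, e, g, k1, k2, k3, k4, k5, k6, k7, k8, k9, k⟩
  have hJR : (J₀ : ℝ) + 1 ≤ J := by exact_mod_cast hJ
  have hJ0 : (0 : ℝ) < J := by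
    have : (0 : ℝ) ≤ J₀ := Nat.cast_nonneg _
    linarith
  have key : ∀ {u u' v : ℝ}, 0 ≤ u → u < u' → 1 / (u' - u) ≤ J₀ → ⌊v * J⌋₊ ≤ ⌊u * J⌋₊ →
      v ≤ u' := by
    intro u u' v hu huu h2 h3
    have h4 := Nat.lt_floor_add_one (v * (J : ℝ))
    have h5 := Nat.floor_le (mul_nonneg hu hJ0.le)
    have h6 : ((⌊v * (J : ℝ)⌋₊ : ℕ) : ℝ) ≤ ⌊u * (J : ℝ)⌋₊ := by exact_mod_cast h3
    have h7 : 0 < u' - u := by linarith
    rw [div_le_iff₀ h7] at h2
    have h8 : v * J < u * J + 1 := by linarith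
    have h9 : 1 ≤ J * (u' - u) := by
      have : (J₀ : ℝ) * (u' - u) ≤ J * (u' - u) :=
        mul_le_mul_of_nonneg_right (by linarith) h7.le
      linarith
    have h10 : v * J < u' * J := by nlinarith
    exact (lt_of_mul_lt_mul_right h10 hJ0.le).le
  have hx : x ≤ w' := key hw hww ((le_max_left _ _).trans hJ₀) k5
  have hy : y ≤ q' := key hq hqq ((le_max_right _ _).trans hJ₀) k6
  refine ⟨e, g, k2.trans hx, k7, k8, fun j hj => ?_, ?_⟩
  · refine (k9 j hj).trans (max_le_max le_rfl ?_)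
    have h2 := hβ j hj (x + y) (w' + q') x w' k1 (by linarith) (by linarith) hx (by linarith) h1
    have h3 := mul_le_mul_of_nonneg_right h2 hJ0.le
    linarith
  · exact TCh.mono (i := i) (fun _ _ => le_rfl) k5 (fl_le' (by linarith) J) k6
      (fl_le' (by linarith) J) le_rfl k

/-- **Not exceeded.** -/
theorem TNum.no_ch (hR : TNum (TuB b V β i) S R) (K : ℕ → ℕ) (w q : ℚ) {h d : ℝ} (hw : w ≤ 1)
    (hq : q ≤ 1) (hh : 0 < h) (hd : 0 < d) (h1 : R w q + h ≤ 1) :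
    Bas S (fun J F A => ∀ (x y : ℝ) (e : ℕ) (g : ℕ → ℕ), 0 ≤ x → b ≤ x → 0 ≤ y → x + y ≤ 1 →
      x ≤ w → y ≤ q → (∀ j ≤ i.1.length, g j ≤ J) →
      (∀ j < i.1.length, (g j : ℝ) ≤
        max 0 ((β (i.1.take j, i.1.getD j i.2) (x + y) x - d) * J)) →
      ⌊(R w q + h) * J⌋₊ ≤ g i.1.length →
      ¬ TCh V i K ⌊x * J⌋₊ ⌊y * J⌋₊ e g J F A) := by
  obtain ⟨K₁, hK₁⟩ := exists_nat_ge (1 / d)
  obtain ⟨K₀, hK₀⟩ : ∃ K₀, K₀ = max K₁ (∑ j ∈ range (i.1.length + 1), K j) := ⟨_, rfl⟩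
  have c1 : ∀ j ≤ i.1.length, K j ≤ K₀ := by
    intro j hj
    rw [hK₀]
    exact (Finset.single_le_sum (f := K) (fun _ _ => Nat.zero_le _)
      (mem_range.2 (by omega))).trans (le_max_right _ _)
  have c2 : (K₁ : ℝ) ≤ K₀ := by
    rw [hK₀]
    exact_mod_cast le_max_left _ _
  refine Bas.mono 0 (hR.no K₀ w q h hw hq hh h1) ?_
  intro J _ F A hn x y e g k1 k2 k3 k4 k5 k6 k7 k8 k9 k
  have hJ0 : (0 : ℝ) ≤ J := Nat.cast_nonneg J
  refine hn ⟨x, y, e, g, k1, k2, k3, k4, Nat.floor_le_floor (mul_le_mul_of_nonneg_right k5 hJ0),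
    Nat.floor_le_floor (mul_le_mul_of_nonneg_right k6 hJ0), k9, k7, fun j hj => ?_,
    ChN.cls k fun j hj => c1 j (by omega)⟩
  refine (k8 j hj).trans (max_le_max le_rfl ?_)
  have h2 : (J : ℝ) / (K₀ + 1) ≤ d * J := by
    have h3 : (0 : ℝ) < (K₀ : ℝ) + 1 := by positivity
    rw [div_le_iff₀ h3]
    have h4 : 1 ≤ d * (K₀ + 1) := by
      rw [div_le_iff₀ hd] at hK₁
      nlinarith
    nlinarith
  rw [sub_mul]
  linarith

/-! ### All together -/

/-- **The numbers of the labels in tubes of a class**: `D` the two-sided thresholds, `R x i w q` the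
numbers of the chart `i`, for windows at most `2 ^ (-(b x))` and the visible variable `V x`;
`β x i`: their envelopes, for at most `c x` digits. Lists of length less than `N`. -/
structure Nums {α : Type} (b c : α → ℝ) (V : α → Vis m) (N : ℕ) (S : PCl m)
    (D : List (Fin m) × Fin m → ℝ → ℝ → ℝ) (R β : α → List (Fin m) × Fin m → ℝ → ℝ → ℝ) :
    Prop where
  num : ∀ x i, TNum (TuB (b x) (V x) (β x) i) S (R x i)
  env : ∀ x i, i.1.length < N → β x i = enve (b x) (c x) (D i) (R x i)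
  law : ∀ x i, i.1.length < N → Law (β x i)
  dia : ∀ x i, i.1.length < N → ∀ a : ℝ, 0 ≤ a → a ≤ 1 → β x i a a = D i a a
  low : ∀ x i, i.1.length < N → ∀ a w : ℝ, 0 ≤ w → w ≤ a → a ≤ 1 →
    min 1 (D i w w + (a - w)) ≤ β x i a w
  up : ∀ x i, i.1.length < N → ∀ a w : ℝ, 0 ≤ w → w ≤ a → a ≤ 1 → β x i a w ≤ D i a a
  top : ∀ x i, i.1.length < N → ∀ a w : ℝ, 0 ≤ w → b x ≤ w → w ≤ a → a ≤ 1 → a ≤ w + c x →
    β x i a w ≤ max (R x i w (a - w)) (min 1 (D i w w + (a - w)))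
  topv : ∀ x i, i.1.length < N → ∀ w q v : ℝ, 0 ≤ w → b x ≤ w → 0 ≤ q → 0 ≤ v →
    w + q + v ≤ 1 → q + v ≤ c x → β x i (w + q) w ≤
      max (max (R x i w (q + v)) (min 1 (D i w w + (q + v))) - v) (min 1 (D i (w + q) (w + q)))
  ball : ∀ x i, ∀ a : ℝ, 0 ≤ a → a ≤ 1 → R x i a 0 ≤ D i a a

/-- The envelopes are monotone. -/
theorem Nums.side {α : Type} {b c : α → ℝ} {V : α → Vis m} {N : ℕ} {S : PCl m}
    {D : List (Fin m) × Fin m → ℝ → ℝ → ℝ} {R β : α → List (Fin m) × Fin m → ℝ → ℝ → ℝ}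
    (h : Nums b c V N S D R β) (x : α) {i : List (Fin m) × Fin m} (hi : i.1.length ≤ N) :
    ∀ j < i.1.length, ∀ a a' w w' : ℝ, 0 ≤ w → w ≤ a → a ≤ a' → w ≤ w' → w' ≤ a' →
      a' ≤ 1 → β x (i.1.take j, i.1.getD j i.2) a w ≤ β x (i.1.take j, i.1.getD j i.2) a' w' := by
  intro j hj a a' w w' h0 h1 h2 h3 h4 h5
  refine (h.law x (i.1.take j, i.1.getD j i.2) ?_).mono h0 h1 h2 h3 h4 h5
  show (i.1.take j).length < N
  rw [List.length_take]
  omega

/-- **All classes have a subclass with such numbers.** -/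
theorem nums {α : Type} [Countable α] (b c : α → ℝ) (hc : ∀ x, 0 ≤ c x) (V : α → Vis m)
    (hV : ∀ x, (V x).Few)
    (N : ℕ) {S : PCl m} (hS : S.Ne) {D : List (Fin m) × Fin m → ℝ → ℝ → ℝ}
    (hD : ThrOf (lsys m) S D) :
    ∃ (S' : PCl m) (R β : α → List (Fin m) × Fin m → ℝ → ℝ → ℝ), S'.Ne ∧
      (∀ (τ : ℝ) (J : ℕ) (F : Fam m J) (A : F.Ω → Prop), S'.St τ J F A → S.St τ J F A) ∧
      Nums b c V N S' D R β := by
  obtain ⟨S', R, β, h1, h2, h3, h4⟩ := rec_num b c V hS D N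
  have hD' := hD.sub h2
  have hn : ∀ x i, TNum (TuB (b x) (V x) (β x) i) S' (R x i) := fun x i => h3.num (x, i)
  have hr : ∀ x i, RDat (rmx (b x) (c x) (fun a => D i a a) (R x i)) (fun a => D i a a) :=
    fun x i => (hn x i).rdat h1 (hV x) hD' (hc x)
  refine ⟨S', R, β, h1, h2, ⟨hn, h4, ?_, ?_, ?_, ?_, ?_, ?_, ?_⟩⟩
  · intro x i hi
    rw [h4 x i hi]
    exact (hr x i).env_law
  · intro x i hi a ha ha1
    rw [h4 x i hi]
    exact (hr x i).env_diag ha ha1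
  · intro x i hi a w hw hwa ha
    rw [h4 x i hi]
    exact (hr x i).env_low hw hwa ha
  · intro x i hi a w hw hwa ha
    rw [h4 x i hi]
    exact (hr x i).env_up hw hwa ha
  · intro x i hi a w hw hb hwa ha hac
    rw [h4 x i hi]
    refine ((hr x i).env_le_R hw le_rfl hwa ha).trans ?_
    rw [rmx_ge hb (by linarith)]
  · intro x i hi w q v hw hb hq hv h1 hqc
    rw [h4 x i hi]
    refine ((hr x i).env_le_v hw hq hv h1).trans ?_
    rw [rmx_ge hb hqc]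
  · intro x i a ha ha1
    exact (hn x i).diag_le h1 (hV x) hD' ha ha1

end Pool.RTS
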