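import Pool.Agent.H2.GEN.LabT

/-!
# Thresholds of systems of labels with two increasing parameters

`TSys`: labels `T i K w q P` in countably many charts `i`, of the class `K`, with two parameters
`w`, `q` in which the labels increase. Every class has a subclass in which the thresholds of all
these labels are numbers `R i w q` (`tthr`): increasing functions on the plane, attained and not
exceeded. If a digit of `w` (or of `q`) counts for a digit of the precision, the same is true for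
the numbers.
-/

set_option autoImplicit false

namespace Pool.RTS

open Finset Real
open Pool.Agent.H49.Ent Pool.Agent.H32.Dense Pool.STK Pool.KA Pool.KSAT Pool.K2S Pool.PB Pool.S6C
open Pool.LBT (fl_le')

variable {m : ℕ}

/-- **A system of labels with two increasing parameters.** -/
structure TSys (m : ℕ) where
  /-- the charts -/
  ι : Type
  /-- the labels in the chart `i`, of the class `K`, with the parameters `w` and `q`, with the
  precision `2 ^ (-P)` -/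
  T : ι → ℕ → ℕ → ℕ → ℕ → Stat m
  her : ∀ (i : ι) (K w q P J : ℕ) (F : Fam m J), Hered (T i K w q P J F)
  anti : ∀ {i : ι} {K w q P P' J : ℕ} {F : Fam m J} {A : F.Ω → Prop}, P' ≤ P →
    T i K w q P J F A → T i K w q P' J F A
  mono : ∀ {i : ι} {K K' w w' q q' P J : ℕ} {F : Fam m J} {A : F.Ω → Prop}, K ≤ K' → w ≤ w' →
    q ≤ q' → w' ≤ J → q' ≤ J → T i K w q P J F A → T i K' w' q' P J F A

/-- **The thresholds of a class.** -/
structure TThr (L : TSys m) (S : PCl m) (R : L.ι → ℝ → ℝ → ℝ) : Prop where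
  mono : ∀ (i : L.ι) {w w' q q' : ℝ}, w ≤ w' → q ≤ q' → R i w q ≤ R i w' q'
  nonneg : ∀ (i : L.ι) (w q : ℝ), 0 ≤ R i w q
  up : ∀ (i : L.ι) (w q : ℝ), R i w q ≤ 1
  left : ∀ (i : L.ι) (w q e : ℝ), 0 < e → ∃ w' q' : ℚ, (w' : ℝ) ≤ w ∧ (q' : ℝ) ≤ q ∧
    R i w q - e < R i w' q'
  att : ∀ (i : L.ι) (w q h : ℝ), w ≤ 1 → q ≤ 1 → 0 < h → h < R i w q → ∃ K : ℕ,
    Bas S (fun J F A => L.T i K ⌊w * J⌋₊ ⌊q * J⌋₊ ⌊(R i w q - h) * J⌋₊ J F A)
  no : ∀ (i : L.ι) (K : ℕ) (w q : ℚ) (h : ℝ), w ≤ 1 → q ≤ 1 → 0 < h → R i w q + h ≤ 1 →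
    Bas S (fun J F A => ¬ L.T i K ⌊(w : ℝ) * J⌋₊ ⌊(q : ℝ) * J⌋₊ ⌊(R i w q + h) * J⌋₊ J F A)

/-- Thresholds of a class are thresholds of all subclasses. -/
theorem TThr.sub {L : TSys m} {S S' : PCl m} {R : L.ι → ℝ → ℝ → ℝ} (h : TThr L S R)
    (hs : ∀ (τ : ℝ) (J : ℕ) (F : Fam m J) (A : F.Ω → Prop), S'.St τ J F A → S.St τ J F A) :
    TThr L S' R where
  mono := h.mono
  nonneg := h.nonneg
  up := h.up
  left := h.left
  att := by
    intro i w q h' h1 h2 h3 h4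
    obtain ⟨K, hK⟩ := h.att i w q h' h1 h2 h3 h4
    exact ⟨K, hK.sub hs⟩
  no := fun i K w q h' h1 h2 h3 h4 => (h.no i K w q h' h1 h2 h3 h4).sub hs

/-- None exceeds, at real points: the thresholds of larger points are bounds. -/
theorem TThr.no' {L : TSys m} {S : PCl m} {R : L.ι → ℝ → ℝ → ℝ} (hR : TThr L S R) (i : L.ι)
    (K : ℕ) {w q w' q' h : ℝ} (hw : w < w') (hq : q < q') (hw' : w' ≤ 1) (hq' : q' ≤ 1)
    (hh : 0 < h) (h1 : R i w' q' + h ≤ 1) :
    Bas S (fun J F A => ¬ L.T i K ⌊w * J⌋₊ ⌊q * J⌋₊ ⌊(R i w' q' + h) * J⌋₊ J F A) := by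
  obtain ⟨x, hx1, hx2⟩ := exists_rat_btwn hw
  obtain ⟨y, hy1, hy2⟩ := exists_rat_btwn hq
  have hle : R i x y ≤ R i w' q' := hR.mono i hx2.le hy2.le
  obtain ⟨τ, hτ, J₁, hb⟩ := hR.no i K x y (R i w' q' + h - R i x y)
    (by exact_mod_cast hx2.le.trans hw') (by exact_mod_cast hy2.le.trans hq')
    (by linarith only [hh, hle]) (by linarith only [h1])
  refine ⟨τ, hτ, J₁, fun J hJ F A hA hT => hb J hJ F A hA ?_⟩
  have hJ0 : (0 : ℝ) ≤ J := Nat.cast_nonneg J
  have e3 : R i x y + (R i w' q' + h - R i x y) = R i w' q' + h := by ring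
  rw [e3]
  exact L.mono le_rfl (Nat.floor_le_floor (mul_le_mul_of_nonneg_right hx1.le hJ0))
    (Nat.floor_le_floor (mul_le_mul_of_nonneg_right hy1.le hJ0))
    (fl_le' (hx2.le.trans hw') J) (fl_le' (hy2.le.trans hq') J) hT

/-- The threshold property. -/
noncomputable def TSys.tq (L : TSys m) (i : L.ι) (K : ℕ) (w q : ℝ) : Thr m where
  Q s J F A := s ≤ 0 ∨ L.T i K ⌊min w 1 * J⌋₊ ⌊min q 1 * J⌋₊ ⌊s * J⌋₊ J F A
  her := by
    rintro s J F A B hB (h | h)
    · exact Or.inl h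
    · exact Or.inr (L.her _ _ _ _ _ J F A B hB h)
  anti := by
    rintro s s' J F A hs (h | h)
    · exact Or.inl (hs.trans h)
    · exact Or.inr (L.anti (Nat.floor_le_floor
        (mul_le_mul_of_nonneg_right hs (Nat.cast_nonneg J))) h)
  triv := Or.inl

/-- A property which holds and does not hold. -/
theorem bas_false {S : PCl m} (hS : S.Ne) {Φ Ψ : Stat m} (h : Bas S Φ) (h' : Bas S Ψ) {J₂ : ℕ}
    (H : ∀ J ≥ J₂, ∀ (F : Fam m J) (A : F.Ω → Prop), Φ J F A → Ψ J F A → False) : False :=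
  Clp.not_false hS (Clp.mono (J₂ := J₂) (h.and h').clp fun J hJ F A hA => H J hJ F A hA.1 hA.2)

/-! ### Extension from the rational points -/

/-- The values at the rational points below. -/
def tset (p : ℚ → ℚ → ℝ) (w q : ℝ) : Set ℝ :=
  {y | ∃ w' q' : ℚ, (w' : ℝ) ≤ w ∧ (q' : ℝ) ≤ q ∧ y = p w' q'}

/-- The extension to the real points. -/
noncomputable def text (p : ℚ → ℚ → ℝ) (w q : ℝ) : ℝ := sSup (tset p w q)

/-- The laws at the rational points. -/
structure TLaw (p : ℚ → ℚ → ℝ) : Prop where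
  low : ∀ w q : ℚ, 0 ≤ p w q
  up : ∀ w q : ℚ, p w q ≤ 1
  mono : ∀ w w' q q' : ℚ, w ≤ w' → q ≤ q' → p w q ≤ p w' q'

variable {p : ℚ → ℚ → ℝ}

theorem tset_bdd (h : TLaw p) (w q : ℝ) : BddAbove (tset p w q) := by
  refine ⟨1, ?_⟩
  rintro y ⟨w', q', -, -, rfl⟩
  exact h.up w' q'

theorem tset_ne (w q : ℝ) : (tset p w q).Nonempty := by
  obtain ⟨w', hw'⟩ := exists_rat_lt w
  obtain ⟨q', hq'⟩ := exists_rat_lt q
  exact ⟨p w' q', w', q', hw'.le, hq'.le, rfl⟩

theorem text_rat (h : TLaw p) (w q : ℚ) : text p w q = p w q := by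
  refine le_antisymm (csSup_le (tset_ne _ _) ?_)
    (le_csSup (tset_bdd h _ _) ⟨w, q, le_rfl, le_rfl, rfl⟩)
  rintro y ⟨w', q', h1, h2, rfl⟩
  exact h.mono w' w q' q (by exact_mod_cast h1) (by exact_mod_cast h2)

theorem le_text (h : TLaw p) {w q : ℝ} {w' q' : ℚ} (h1 : (w' : ℝ) ≤ w) (h2 : (q' : ℝ) ≤ q) :
    p w' q' ≤ text p w q := le_csSup (tset_bdd h _ _) ⟨w', q', h1, h2, rfl⟩

theorem text_up (h : TLaw p) (w q : ℝ) : text p w q ≤ 1 := by
  refine csSup_le (tset_ne w q) ?_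
  rintro y ⟨w', q', -, -, rfl⟩
  exact h.up w' q'

theorem text_low (h : TLaw p) (w q : ℝ) : 0 ≤ text p w q := by
  obtain ⟨y, w', q', h1, h2, rfl⟩ := tset_ne (p := p) w q
  exact (h.low w' q').trans (le_text h h1 h2)

theorem text_att (w q : ℝ) {e : ℝ} (he : 0 < e) : ∃ w' q' : ℚ, (w' : ℝ) ≤ w ∧
    (q' : ℝ) ≤ q ∧ text p w q - e < p w' q' := by
  obtain ⟨y, ⟨w', q', h1, h2, rfl⟩, hy⟩ :=
    exists_lt_of_lt_csSup (tset_ne (p := p) w q) (show sSup (tset p w q) - e <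
      sSup (tset p w q) by linarith only [he])
  exact ⟨w', q', h1, h2, hy⟩

theorem text_mono (h : TLaw p) {w w' q q' : ℝ} (hw : w ≤ w') (hq : q ≤ q') :
    text p w q ≤ text p w' q' := by
  refine csSup_le_csSup (tset_bdd h _ _) (tset_ne w q) ?_
  rintro y ⟨b, c, h1, h2, rfl⟩
  exact ⟨b, c, h1.trans hw, h2.trans hq, rfl⟩

/-! ### The thresholds -/

/-- **The thresholds exist.** -/
theorem tthr (L : TSys m) [Countable L.ι] (S : PCl m) (hS : S.Ne) :
    ∃ (S' : PCl m) (R : L.ι → ℝ → ℝ → ℝ), S'.Ne ∧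
      (∀ (τ : ℝ) (J : ℕ) (F : Fam m J) (A : F.Ω → Prop), S'.St τ J F A → S.St τ J F A) ∧
      TThr L S' R := by
  classical
  rcases isEmpty_or_nonempty L.ι with hemp | hne0
  · exact ⟨S, fun _ _ _ => 0, hS, fun _ _ _ _ h => h, ⟨fun i => (hemp.false i).elim,
      fun i => (hemp.false i).elim, fun i => (hemp.false i).elim, fun i => (hemp.false i).elim,
      fun i => (hemp.false i).elim, fun i => (hemp.false i).elim⟩⟩
  obtain ⟨f, hf⟩ := exists_surjective_nat (L.ι × ℕ × ℚ × ℚ)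
  obtain ⟨s, S', h01, hsub, hne, hatt, hno, -⟩ := ext S hS
    (fun n => L.tq (f n).1 (f n).2.1 ((f n).2.2.1 : ℝ) ((f n).2.2.2 : ℝ))
  obtain ⟨g, hg⟩ : ∃ g : L.ι × ℕ × ℚ × ℚ → ℕ, ∀ a, f (g a) = a :=
    ⟨Function.surjInv hf, Function.surjInv_eq hf⟩
  obtain ⟨th, hth⟩ : ∃ th : L.ι → ℕ → ℚ → ℚ → ℝ,
    th = fun i K w q => s (g (i, K, w, q)) := ⟨_, rfl⟩
  have th0 : ∀ i K w q, 0 ≤ th i K w q := fun i K w q => by rw [hth]; exact (h01 _).1
  have th1 : ∀ i K w q, th i K w q ≤ 1 := fun i K w q => by rw [hth]; exact (h01 _).2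
  have att : ∀ (i : L.ι) (K : ℕ) (w q : ℚ), ∀ τ > 0,
      Bas S' ((L.tq i K w q).Q (th i K w q - τ)) := by
    intro i K w q τ hτ
    have hg0 : (0 : ℝ) < (g (i, K, w, q) : ℝ) + 1 := by positivity
    refine ⟨min τ (1 / ((g (i, K, w, q) : ℝ) + 1)), lt_min hτ (by positivity), 0,
      fun J _ F A hA => ?_⟩
    have h2 := hatt (g (i, K, w, q)) (min τ (1 / ((g (i, K, w, q) : ℝ) + 1))) J F A (by
      calc _ ≤ ((g (i, K, w, q) : ℝ) + 1) * (1 / ((g (i, K, w, q) : ℝ) + 1)) :=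
            mul_le_mul_of_nonneg_left (min_le_right _ _) hg0.le
        _ = 1 := by field_simp) hA
    have e := hg (i, K, w, q)
    rw [hth]
    simp only [e] at h2
    exact (L.tq i K w q).anti (by linarith only [min_le_left τ (1 / ((g (i, K, w, q) : ℝ) + 1))]) h2
  have no : ∀ (i : L.ι) (K : ℕ) (w q : ℚ), ∀ h : ℝ, th i K w q < h → h ≤ 1 →
      ∃ ψ > 0, Clp S' ((L.tq i K w q).No h ψ) := by
    intro i K w q h h1 h2
    rw [hth] at h1
    have h3 := hno (g (i, K, w, q)) h h1 h2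
    have e := hg (i, K, w, q)
    simp only [e] at h3
    exact h3
  have ex1 : ∀ (δ : ℝ) (J : ℕ) (F : Fam m J) (A : F.Ω → Prop), 0 ≤ δ →
      Real.exp (-(δ * J)) * Pe F.p A ≤ Pe F.p A := by
    intro δ J F A hδ
    have : Real.exp (-(δ * J)) ≤ 1 := by
      rw [Real.exp_le_one_iff]
      have : 0 ≤ δ * (J : ℝ) := by positivity
      linarith
    calc _ ≤ 1 * Pe F.p A := mul_le_mul_of_nonneg_right this (Pe_nonneg F.isLaw A)
      _ = _ := one_mul _
  have cmp : ∀ (i : L.ι) (K K' : ℕ) (w w' q q' : ℚ), K ≤ K' → w ≤ w' → q ≤ q' →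
      th i K w q ≤ th i K' w' q' := by
    intro i K K' w w' q q' hK hw hq
    by_contra hcon
    push Not at hcon
    have h1 : (th i K w q + th i K' w' q') / 2 ≤ th i K' w' q' := by
      refine le_of_att hne (no i K' w' q') (by linarith only [hcon, th1, th1 i K w q]) fun δ hδ => ?_
      refine Clp.mono (J₂ := 0) (att i K w q ((th i K w q - th i K' w' q') / 2)
        (by linarith only [hcon])).clp ?_
      intro J _ F A hQ
      refine ⟨A, fun _ h => h, ex1 δ J F A hδ.le, ?_⟩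
      have e : th i K w q - (th i K w q - th i K' w' q') / 2 =
        (th i K w q + th i K' w' q') / 2 := by ring
      rw [e] at hQ
      rcases hQ with hQ | hQ
      · exact Or.inl hQ
      · have hJ0 : (0 : ℝ) ≤ J := Nat.cast_nonneg J
        have hw' : (w : ℝ) ≤ w' := by exact_mod_cast hw
        have hq' : (q : ℝ) ≤ q' := by exact_mod_cast hq
        exact Or.inr (L.mono hK
          (Nat.floor_le_floor (mul_le_mul_of_nonneg_right (min_le_min_right 1 hw') hJ0))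
          (Nat.floor_le_floor (mul_le_mul_of_nonneg_right (min_le_min_right 1 hq') hJ0))
          (fl_le' (min_le_right _ _) J) (fl_le' (min_le_right _ _) J) hQ)
    linarith only [hcon, h1]
  obtain ⟨Θ, hΘ⟩ : ∃ Θ : L.ι → ℚ → ℚ → ℝ, Θ = fun i w q => ⨆ K : ℕ, th i K w q := ⟨_, rfl⟩
  have bdd : ∀ i w q, BddAbove (Set.range fun K : ℕ => th i K w q) := by
    intro i w q
    refine ⟨1, ?_⟩
    rintro y ⟨K, rfl⟩
    exact th1 i K w q
  have leΘ : ∀ i K w q, th i K w q ≤ Θ i w q := by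
    intro i K w q
    rw [hΘ]
    exact le_ciSup (bdd i w q) K
  have Θle : ∀ i w q b, (∀ K, th i K w q ≤ b) → Θ i w q ≤ b := by
    intro i w q b hb
    rw [hΘ]
    exact ciSup_le hb
  have hR : ∀ i, TLaw (Θ i) := fun i => ⟨fun w q => (th0 i 0 w q).trans (leΘ i 0 w q),
    fun w q => Θle i w q 1 fun K => th1 i K w q, fun w w' q q' h1 h2 =>
    Θle i w q _ fun K => (cmp i K K w w' q q' le_rfl h1 h2).trans (leΘ i K w' q')⟩
  refine ⟨S', fun i => text (Θ i), hne, hsub, ⟨fun i w w' q q' h1 h2 => text_mono (hR i) h1 h2,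
    fun i => text_low (hR i), fun i => text_up (hR i), fun i w q e he => ?_, ?_, ?_⟩⟩
  · obtain ⟨w', q', h1, h2, h3⟩ := text_att (p := Θ i) w q he
    refine ⟨w', q', h1, h2, ?_⟩
    simp only [text_rat (hR i)]
    exact h3
  · intro i w q h h1 h2 h3 h4
    obtain ⟨w', q', h5, h6, h7⟩ := text_att (p := Θ i) w q (half_pos h3)
    obtain ⟨K, hK⟩ : ∃ K, text (Θ i) w q - h / 2 < th i K w' q' := by
      by_contra hcon
      push Not at hcon
      have := Θle i w' q' _ hcon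
      linarith only [h7, this]
    refine ⟨K, Bas.mono 0 (att i K w' q' (h / 2) (half_pos h3)) ?_⟩
    intro J _ F A hQ
    have hJ0 : (0 : ℝ) ≤ J := Nat.cast_nonneg J
    have hQ' := (L.tq i K w' q').anti (show text (Θ i) w q - h ≤ th i K w' q' - h / 2 by
      linarith only [hK]) hQ
    rcases hQ' with hQ' | hQ'
    · exfalso
      linarith only [h4, hQ']
    · exact L.mono le_rfl
        (Nat.floor_le_floor (mul_le_mul_of_nonneg_right ((min_le_left _ _).trans h5) hJ0))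
        (Nat.floor_le_floor (mul_le_mul_of_nonneg_right ((min_le_left _ _).trans h6) hJ0))
        (fl_le' h1 J) (fl_le' h2 J) hQ'
  · intro i K w q h h1 h2 h3 h4
    have e1 : text (Θ i) w q = Θ i w q := text_rat (hR i) w q
    simp only [e1] at h4 ⊢
    have h5 : th i K w q < Θ i w q + h := by
      have := leΘ i K w q
      linarith
    obtain ⟨ψ, hψ, hc⟩ := no i K w q _ h5 h4
    refine Bas.neg (Q := fun J F A => L.T i K ⌊(w : ℝ) * J⌋₊ ⌊(q : ℝ) * J⌋₊
      ⌊(Θ i w q + h) * J⌋₊ J F A) (fun J F => L.her _ _ _ _ _ J F) ?_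
    refine Clp.mono (J₂ := 0) hc ?_
    intro J _ F A hN hG
    have hw : min (w : ℝ) 1 = w := min_eq_left (by exact_mod_cast h1)
    have hq : min (q : ℝ) 1 = q := min_eq_left (by exact_mod_cast h2)
    refine hN A (fun _ h => h) (ex1 ψ J F A hψ.le) (Or.inr ?_)
    rw [hw, hq]
    exact hG

/-! ### The laws of the numbers -/

section laws

variable {L : TSys m} {S : PCl m} {R : L.ι → ℝ → ℝ → ℝ}

/-- A lower bound at a rational point: labels of all smaller precisions, on large events. -/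
theorem TThr.ge (hR : TThr L S R) (hS : S.Ne) (i : L.ι) (w q : ℚ) (hw : w ≤ 1) (hq : q ≤ 1)
    {b : ℝ} (hb1 : b ≤ 1)
    (H : ∀ c : ℝ, 0 < c → c < b → ∃ K : ℕ, ∀ δ : ℝ, 0 < δ → Bas S (fun J F A =>
      ∃ B : F.Ω → Prop, Sub B A ∧ Real.exp (-(δ * J)) * Pe F.p A ≤ Pe F.p B ∧
        L.T i K ⌊(w : ℝ) * J⌋₊ ⌊(q : ℝ) * J⌋₊ ⌊c * J⌋₊ J F B)) : b ≤ R i w q := by
  by_contra hcon
  push Not at hcon
  have h0 := hR.nonneg i w q
  obtain ⟨c, hc1, hc2⟩ := exists_between hcon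
  obtain ⟨K, hK⟩ := H c (h0.trans_lt hc1) hc2
  obtain ⟨c', hc'1, hc'2⟩ := exists_between hc1
  obtain ⟨τ, hτ, J₁, hn⟩ := hR.no i K w q (c - R i w q) hw hq (by linarith) (by linarith)
  have e : R i w q + (c - R i w q) = c := by ring
  rw [e] at hn
  obtain ⟨τ', hτ', J₂, ha⟩ := hK (τ / 2) (half_pos hτ)
  refine Clp.not_false hS (Clp.base (min (τ / 2) τ') (lt_min (half_pos hτ) hτ') (max J₁ J₂)
    fun J hJ F A hA => ?_)
  obtain ⟨B, h1, h2, h3⟩ := ha J ((le_max_right _ _).trans hJ) F A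
    (S.mono (min_le_right _ _) hA)
  refine hn J ((le_max_left _ _).trans hJ) F B ?_ h3
  have h4 := S.res (half_pos hτ).le (S.mono (min_le_left _ _) hA) h1 h2
  rwa [add_halves] at h4

/-- **One digit of `w` counts for one digit of the precision.** -/
def SloW (L : TSys m) : Prop := ∀ {i : L.ι} {K w q P v J : ℕ} {F : Fam m J} {A : F.Ω → Prop},
  L.T i K w q P J F A → L.T i K (w + v) q (P + v) J F A

/-- **One digit of `q` counts for one digit of the precision.** -/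
def SloQ (L : TSys m) : Prop := ∀ {i : L.ι} {K w q P v J : ℕ} {F : Fam m J} {A : F.Ω → Prop},
  L.T i K w q P J F A → L.T i K w (q + v) (P + v) J F A

theorem fl_add {x y : ℝ} (hx : 0 ≤ x) (hy : 0 ≤ y) (J : ℕ) :
    ⌊x * J⌋₊ + ⌊y * J⌋₊ ≤ ⌊(x + y) * J⌋₊ := by
  have hJ : (0 : ℝ) ≤ J := Nat.cast_nonneg J
  apply Nat.le_floor
  push_cast
  have h1 := Nat.floor_le (mul_nonneg hx hJ)
  have h2 := Nat.floor_le (mul_nonneg hy hJ)
  linarith

/-- The precision `s` is reached from the precision `t > s - v`. -/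
theorem fl_prec {s t v : ℝ} (h : s < t + v) : ∃ J₀ : ℕ, ∀ J ≥ J₀,
    ⌊s * J⌋₊ ≤ ⌊t * J⌋₊ + ⌊v * (J : ℝ)⌋₊ := by
  have h0 : 0 < t + v - s := by linarith
  obtain ⟨J₀, hJ₀⟩ := exists_nat_ge (2 / (t + v - s))
  refine ⟨J₀, fun J hJ => ?_⟩
  have hJ' : (J₀ : ℝ) ≤ J := by exact_mod_cast hJ
  have h1 : 2 / (t + v - s) ≤ J := hJ₀.trans hJ'
  rw [div_le_iff₀ h0] at h1
  have h2 := Nat.lt_floor_add_one (t * (J : ℝ))
  have h3 := Nat.lt_floor_add_one (v * (J : ℝ))
  have h4 : s * (J : ℝ) ≤ ((⌊t * (J : ℝ)⌋₊ + ⌊v * (J : ℝ)⌋₊ : ℕ) : ℝ) := by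
    push_cast
    nlinarith
  exact Nat.floor_le_of_le h4

/-- **(R2)** at rational points. -/
theorem TThr.slope_w_rat (hR : TThr L S R) (hS : S.Ne) (hs : SloW L) (i : L.ι) {w v q : ℚ}
    (hw : 0 ≤ w) (hv : 0 ≤ v) (h1 : w + v ≤ 1) (hq : q ≤ 1) (h0 : 0 < R i w q) :
    min 1 (R i w q + v) ≤ R i (w + v : ℚ) q := by
  have hvR : (0 : ℝ) ≤ v := by exact_mod_cast hv
  have hwR : (0 : ℝ) ≤ w := by exact_mod_cast hw
  have hwv : (w : ℝ) + v ≤ 1 := by exact_mod_cast h1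
  refine hR.ge hS i (w + v) q h1 hq (min_le_left _ _) fun c hc0 hc => ?_
  have hc1 := hc.trans_le (min_le_left _ _)
  have hc2 := hc.trans_le (min_le_right _ _)
  obtain ⟨h, hh⟩ : ∃ h, h = min (R i w q / 2) ((R i w q + v - c) / 2) := ⟨_, rfl⟩
  have hh0 : 0 < h := by rw [hh]; exact lt_min (by linarith) (by linarith)
  have hh1 : h ≤ R i w q / 2 := by rw [hh]; exact min_le_left _ _
  have hh2 : h ≤ (R i w q + v - c) / 2 := by rw [hh]; exact min_le_right _ _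
  obtain ⟨K, hK⟩ := hR.att i w q h (by linarith) (by exact_mod_cast hq) hh0 (by linarith)
  obtain ⟨J₀, hJ₀⟩ := fl_prec (s := c) (t := R i w q - h) (v := v) (by linarith)
  refine ⟨K, fun δ hδ => Bas.mono J₀ hK fun J hJ F A hA => ⟨A, fun _ h => h, ?_, ?_⟩⟩
  · have : Real.exp (-(δ * J)) ≤ 1 := by
      rw [Real.exp_le_one_iff]
      have : 0 ≤ δ * (J : ℝ) := by positivity
      linarith
    calc _ ≤ 1 * Pe F.p A := mul_le_mul_of_nonneg_right this (Pe_nonneg F.isLaw A)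
      _ = _ := one_mul _
  · refine L.anti (hJ₀ J hJ) (L.mono le_rfl ?_ le_rfl (fl_le' (by push_cast; exact hwv) J)
      (fl_le' (by exact_mod_cast hq) J) (hs (v := ⌊(v : ℝ) * J⌋₊) hA))
    push_cast
    exact fl_add hwR hvR J

/-- **(R2')** at rational points. -/
theorem TThr.slope_q_rat (hR : TThr L S R) (hS : S.Ne) (hs : SloQ L) (i : L.ι) {w v q : ℚ}
    (hw : w ≤ 1) (hv : 0 ≤ v) (hq : 0 ≤ q) (h1 : q + v ≤ 1) (h0 : 0 < R i w q) :
    min 1 (R i w q + v) ≤ R i w (q + v : ℚ) := by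
  have hvR : (0 : ℝ) ≤ v := by exact_mod_cast hv
  have hqR : (0 : ℝ) ≤ q := by exact_mod_cast hq
  have hqv : (q : ℝ) + v ≤ 1 := by exact_mod_cast h1
  refine hR.ge hS i w (q + v) hw h1 (min_le_left _ _) fun c hc0 hc => ?_
  have hc1 := hc.trans_le (min_le_left _ _)
  have hc2 := hc.trans_le (min_le_right _ _)
  obtain ⟨h, hh⟩ : ∃ h, h = min (R i w q / 2) ((R i w q + v - c) / 2) := ⟨_, rfl⟩
  have hh0 : 0 < h := by rw [hh]; exact lt_min (by linarith) (by linarith)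
  have hh1 : h ≤ R i w q / 2 := by rw [hh]; exact min_le_left _ _
  have hh2 : h ≤ (R i w q + v - c) / 2 := by rw [hh]; exact min_le_right _ _
  obtain ⟨K, hK⟩ := hR.att i w q h (by exact_mod_cast hw) (by linarith) hh0 (by linarith)
  obtain ⟨J₀, hJ₀⟩ := fl_prec (s := c) (t := R i w q - h) (v := v) (by linarith)
  refine ⟨K, fun δ hδ => Bas.mono J₀ hK fun J hJ F A hA => ⟨A, fun _ h => h, ?_, ?_⟩⟩
  · have : Real.exp (-(δ * J)) ≤ 1 := by
      rw [Real.exp_le_one_iff]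
      have : 0 ≤ δ * (J : ℝ) := by positivity
      linarith
    calc _ ≤ 1 * Pe F.p A := mul_le_mul_of_nonneg_right this (Pe_nonneg F.isLaw A)
      _ = _ := one_mul _
  · refine L.anti (hJ₀ J hJ) (L.mono le_rfl le_rfl ?_ (fl_le' (by exact_mod_cast hw) J)
      (fl_le' (by push_cast; exact hqv) J) (hs (v := ⌊(v : ℝ) * J⌋₊) hA))
    push_cast
    exact fl_add hqR hvR J

/-- A rational number below, near. -/
theorem rat_near {v e : ℝ} (hv : 0 ≤ v) (he : 0 < e) : ∃ u : ℚ, 0 ≤ u ∧ (u : ℝ) ≤ v ∧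
    v - e < u := by
  rcases lt_or_ge (v - e) 0 with h | h
  · exact ⟨0, le_rfl, by simpa using hv, by simpa using h⟩
  · obtain ⟨u, hu1, hu2⟩ := exists_rat_btwn (show v - e < v by linarith)
    refine ⟨u, ?_, hu2.le, hu1⟩
    have : (0 : ℝ) ≤ u := h.trans hu1.le
    exact_mod_cast this

/-- **(R2)**: the slope in `w`. -/
theorem TThr.slope_w (hR : TThr L S R) (hS : S.Ne) (hs : SloW L) (i : L.ι) {w v q : ℝ}
    (hw : 0 ≤ w) (hv : 0 ≤ v) (h1 : w + v ≤ 1) (hq : q ≤ 1) (h0 : 0 < R i w q) :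
    min 1 (R i w q + v) ≤ R i (w + v) q := by
  refine le_of_forall_pos_le_add fun e he => ?_
  obtain ⟨e', he'⟩ : ∃ e', e' = min (e / 2) (R i w q / 2) := ⟨_, rfl⟩
  have e0 : 0 < e' := by rw [he']; exact lt_min (by linarith) (by linarith)
  have e1 : e' ≤ e / 2 := by rw [he']; exact min_le_left _ _
  have e2 : e' ≤ R i w q / 2 := by rw [he']; exact min_le_right _ _
  obtain ⟨w', q', h2, h3, h4⟩ := hR.left i w q e' e0
  obtain ⟨u, hu0, hu1, hu2⟩ := rat_near hv (show 0 < e / 2 by linarith)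
  obtain ⟨w₁, hw₁⟩ : ∃ w₁, w₁ = max w' 0 := ⟨_, rfl⟩
  have a1 : 0 ≤ w₁ := by rw [hw₁]; exact le_max_right _ _
  have a2 : (w₁ : ℝ) ≤ w := by
    rw [hw₁]
    push_cast
    exact max_le h2 hw
  have a3 : R i w' q' ≤ R i w₁ q' := hR.mono i (by
    rw [hw₁]
    push_cast
    exact le_max_left _ _) le_rfl
  have a4 : w₁ + u ≤ 1 := by
    have : (w₁ : ℝ) + u ≤ 1 := by linarith
    exact_mod_cast this
  have a5 : q' ≤ 1 := by
    have : (q' : ℝ) ≤ 1 := h3.trans hq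
    exact_mod_cast this
  have a6 := hR.slope_w_rat hS hs i a1 hu0 a4 a5 (by linarith)
  have a7 : R i (w₁ + u : ℚ) q' ≤ R i (w + v) q := hR.mono i (by push_cast; linarith) h3
  have a8 : min 1 (R i w q + v) - e ≤ min 1 (R i w₁ q' + u) := by
    refine le_min ?_ ?_
    · have := min_le_left 1 (R i w q + v)
      linarith
    · have := min_le_right 1 (R i w q + v)
      linarith
  linarith

/-- **(R2')**: the slope in `q`. -/
theorem TThr.slope_q (hR : TThr L S R) (hS : S.Ne) (hs : SloQ L) (i : L.ι) {w v q : ℝ}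
    (hw : w ≤ 1) (hv : 0 ≤ v) (hq : 0 ≤ q) (h1 : q + v ≤ 1) (h0 : 0 < R i w q) :
    min 1 (R i w q + v) ≤ R i w (q + v) := by
  refine le_of_forall_pos_le_add fun e he => ?_
  obtain ⟨e', he'⟩ : ∃ e', e' = min (e / 2) (R i w q / 2) := ⟨_, rfl⟩
  have e0 : 0 < e' := by rw [he']; exact lt_min (by linarith) (by linarith)
  have e1 : e' ≤ e / 2 := by rw [he']; exact min_le_left _ _
  have e2 : e' ≤ R i w q / 2 := by rw [he']; exact min_le_right _ _
  obtain ⟨w', q', h2, h3, h4⟩ := hR.left i w q e' e0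
  obtain ⟨u, hu0, hu1, hu2⟩ := rat_near hv (show 0 < e / 2 by linarith)
  obtain ⟨q₁, hq₁⟩ : ∃ q₁, q₁ = max q' 0 := ⟨_, rfl⟩
  have a1 : 0 ≤ q₁ := by rw [hq₁]; exact le_max_right _ _
  have a2 : (q₁ : ℝ) ≤ q := by
    rw [hq₁]
    push_cast
    exact max_le h3 hq
  have a3 : R i w' q' ≤ R i w' q₁ := hR.mono i le_rfl (by
    rw [hq₁]
    push_cast
    exact le_max_left _ _)
  have a4 : q₁ + u ≤ 1 := by
    have : (q₁ : ℝ) + u ≤ 1 := by linarith
    exact_mod_cast this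
  have a5 : w' ≤ 1 := by
    have : (w' : ℝ) ≤ 1 := h2.trans hw
    exact_mod_cast this
  have a6 := hR.slope_q_rat hS hs i a5 hu0 a1 a4 (by linarith)
  have a7 : R i w' (q₁ + u : ℚ) ≤ R i w (q + v) := hR.mono i h2 (by push_cast; linarith)
  have a8 : min 1 (R i w q + v) - e ≤ min 1 (R i w' q₁ + u) := by
    refine le_min ?_ ?_
    · have := min_le_left 1 (R i w q + v)
      linarith
    · have := min_le_right 1 (R i w q + v)
      linarith
  linarith

end laws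

end Pool.RTS
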