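import Pool.Agent.H29.REC.Thr
import Pool.Agent.H29.REC.Env
import Pool.Agent.H2.GEN.ChB

/-!
# Labels in tubes

`Vis`: a nested family of visible variables `z w q J F`: `q` digits, at the window `2 ^ (-w)`. `TuB b V β i K w q P`: chains of
labels of the target `i.2` over the list `i.1`, on a window at most `2 ^ (-b)`, which may be longer
than `2 ^ (-w)`; the labels hold on the whole window, over boxes with sides at least `2 ^ (-β)`; the
visible side is a function of the exact point and of the variable `z q`. `tusA`: the system of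
these labels, for countably many pairs `(b, V)`.

`rec_num`: one subclass in which the numbers `R x i w q` of all these labels exist, over sides
`β x i (w + q) w` which are the envelopes of these numbers. Then `β x i` has the laws
`Pool.LEV.Law`, and its diagonal is the diagonal of the two-sided threshold.
-/

set_option autoImplicit false

namespace Pool.RTS

open Finset Real MvPolynomial
open Pool.Agent.H49.Ent Pool.Agent.H32.Dense Pool.STK Pool.KA Pool.KSAT Pool.K2S Pool.PB Pool.S6C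
open Pool.GEN Pool.CHT
open Pool.CHB (Sid ChN.cnd_mono floor_div)
open Pool.LBT (LSys ThrOf fl_le')
open Pool.LBN (Tch lsys cof)
open Pool.LEV (Law)

variable {m J : ℕ}

/-! ### Numbers of one chart -/

/-- The number of the labels `T K w q P`. -/
structure TNum (T : ℕ → ℕ → ℕ → ℕ → Stat m) (S : PCl m) (R : ℝ → ℝ → ℝ) : Prop where
  mono : ∀ {w w' q q' : ℝ}, w ≤ w' → q ≤ q' → R w q ≤ R w' q'
  nonneg : ∀ (w q : ℝ), 0 ≤ R w q
  up : ∀ (w q : ℝ), R w q ≤ 1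
  left : ∀ (w q e : ℝ), 0 < e → ∃ w' q' : ℚ, (w' : ℝ) ≤ w ∧ (q' : ℝ) ≤ q ∧
    R w q - e < R w' q'
  att : ∀ (w q h : ℝ), w ≤ 1 → q ≤ 1 → 0 < h → h < R w q → ∃ K : ℕ,
    Bas S (fun J F A => T K ⌊w * J⌋₊ ⌊q * J⌋₊ ⌊(R w q - h) * J⌋₊ J F A)
  no : ∀ (K : ℕ) (w q : ℚ) (h : ℝ), w ≤ 1 → q ≤ 1 → 0 < h → R w q + h ≤ 1 →
    Bas S (fun J F A => ¬ T K ⌊(w : ℝ) * J⌋₊ ⌊(q : ℝ) * J⌋₊ ⌊(R w q + h) * J⌋₊ J F A)

theorem TThr.num {L : TSys m} {S : PCl m} {R : L.ι → ℝ → ℝ → ℝ} (h : TThr L S R) (i : L.ι) :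
    TNum (L.T i) S (R i) :=
  ⟨fun h1 h2 => h.mono i h1 h2, h.nonneg i, h.up i, h.left i, h.att i, h.no i⟩

theorem TThr.of_num {L : TSys m} {S : PCl m} {R : L.ι → ℝ → ℝ → ℝ}
    (h : ∀ i, TNum (L.T i) S (R i)) : TThr L S R :=
  ⟨fun i _ _ _ _ h1 h2 => (h i).mono h1 h2, fun i => (h i).nonneg, fun i => (h i).up,
    fun i => (h i).left, fun i => (h i).att, fun i => (h i).no⟩

theorem TNum.sub {T : ℕ → ℕ → ℕ → ℕ → Stat m} {S S' : PCl m} {R : ℝ → ℝ → ℝ} (h : TNum T S R)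
    (hs : ∀ (τ : ℝ) (J : ℕ) (F : Fam m J) (A : F.Ω → Prop), S'.St τ J F A → S.St τ J F A) :
    TNum T S' R where
  mono := h.mono
  nonneg := h.nonneg
  up := h.up
  left := h.left
  att := by
    intro w q h' h1 h2 h3 h4
    obtain ⟨K, hK⟩ := h.att w q h' h1 h2 h3 h4
    exact ⟨K, hK.sub hs⟩
  no := fun K w q h' h1 h2 h3 h4 => (h.no K w q h' h1 h2 h3 h4).sub hs

/-! ### Visible variables -/

/-- **A nested family of visible variables**: `q` digits, at the window `2 ^ (-w)`. -/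
structure Vis (m : ℕ) where
  /-- the values -/
  κ : ∀ J : ℕ, Fam m J → Type
  /-- the variable: window `w`, `q` digits -/
  z : ℕ → ℕ → ∀ (J : ℕ) (F : Fam m J), F.Ω → κ J F
  nest : ∀ {w w' q q' J : ℕ} (F : Fam m J), w ≤ w' → w' ≤ J → q ≤ q' → q' ≤ J →
    ∃ φ : κ J F → κ J F, ∀ ω, z w q J F ω = φ (z w' q' J F ω)

/-- The variable with no digits has few values. -/
def Vis.Few (V : Vis m) : Prop := ∃ C : ℕ, ∀ (w J : ℕ) (F : Fam m J),
  ∃ s : Finset (V.κ J F), s.card ≤ C ∧ ∀ ω, V.z w 0 J F ω ∈ s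

/-! ### The labels -/

/-- **Labels in tubes.** -/
def TuB (b : ℝ) (V : Vis m) (β : List (Fin m) × Fin m → ℝ → ℝ → ℝ) (i : List (Fin m) × Fin m)
    (K w q P : ℕ) : Stat m := fun J F A =>
  ∃ (x y : ℝ) (e : ℕ) (g : ℕ → ℕ), 0 ≤ x ∧ b ≤ x ∧ 0 ≤ y ∧ x + y ≤ 1 ∧ ⌊x * J⌋₊ ≤ w ∧
    ⌊y * J⌋₊ ≤ q ∧ P ≤ g i.1.length ∧ (∀ j ≤ i.1.length, g j ≤ J) ∧
    Sid β i K (x + y) x J g ∧
    ChN (F.cnd (V.z ⌊x * J⌋₊ ⌊y * J⌋₊ J F)) (fun j => i.1.getD j i.2) (i.1.length + 1) (fun _ => K)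
      ⌊x * J⌋₊ ⌊x * J⌋₊ e g A

variable {b : ℝ} {V : Vis m} {β : List (Fin m) × Fin m → ℝ → ℝ → ℝ}

theorem TuB.her (b : ℝ) (V : Vis m) (β : List (Fin m) × Fin m → ℝ → ℝ → ℝ)
    (i : List (Fin m) × Fin m) (K w q P J : ℕ) (F : Fam m J) :
    Hered (TuB b V β i K w q P J F) := by
  rintro A B hB ⟨x, y, e, g, h1, h2, h3, h4, h5, h6, h7, h8, h9, h⟩
  exact ⟨x, y, e, g, h1, h2, h3, h4, h5, h6, h7, h8, h9,
    ChN.hered (F.cnd (V.z ⌊x * J⌋₊ ⌊y * J⌋₊ J F)) _ _ _ _ _ _ _ A B hB h⟩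

theorem TuB.anti {i : List (Fin m) × Fin m} {K w q P P' : ℕ} {F : Fam m J} {A : F.Ω → Prop}
    (hP : P' ≤ P) (h : TuB b V β i K w q P J F A) : TuB b V β i K w q P' J F A := by
  obtain ⟨x, y, e, g, h1, h2, h3, h4, h5, h6, h7, h⟩ := h
  exact ⟨x, y, e, g, h1, h2, h3, h4, h5, h6, hP.trans h7, h⟩

theorem TuB.mono {i : List (Fin m) × Fin m} {K K' w w' q q' P : ℕ} {F : Fam m J}
    {A : F.Ω → Prop} (hK : K ≤ K') (hw : w ≤ w') (hq : q ≤ q')
    (h : TuB b V β i K w q P J F A) : TuB b V β i K' w' q' P J F A := by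
  obtain ⟨x, y, e, g, h1, h2, h3, h4, h5, h6, h7, h8, h9, h⟩ := h
  exact ⟨x, y, e, g, h1, h2, h3, h4, h5.trans hw, h6.trans hq, h7, h8, h9.mono hK,
    h.cls fun _ _ => hK⟩

/-- Only the sides of the shorter lists matter. -/
theorem TuB.congr {β' : List (Fin m) × Fin m → ℝ → ℝ → ℝ} {i : List (Fin m) × Fin m}
    (h : ∀ j : List (Fin m) × Fin m, j.1.length < i.1.length → β j = β' j) (b : ℝ) (V : Vis m) :
    TuB b V β i = TuB b V β' i := by
  funext K w q P J F A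
  have hs : ∀ (x y : ℝ) (g : ℕ → ℕ), Sid β i K (x + y) x J g = Sid β' i K (x + y) x J g := by
    intro x y g
    unfold Sid
    refine propext (forall_congr' fun j => forall_congr' fun hj => ?_)
    rw [h (i.1.take j, i.1.getD j i.2) (by
      show (i.1.take j).length < i.1.length
      rw [List.length_take]
      omega)]
  unfold TuB
  simp only [hs]

/-- **The system of the labels in tubes.** -/
noncomputable def tusA {α : Type} (b : α → ℝ) (V : α → Vis m)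
    (β : α → List (Fin m) × Fin m → ℝ → ℝ → ℝ) : TSys m where
  ι := α × (List (Fin m) × Fin m)
  T i := TuB (b i.1) (V i.1) (β i.1) i.2
  her _ K w q P J F := TuB.her _ _ _ _ K w q P J F
  anti h := TuB.anti h
  mono hK hw hq _ _ h := TuB.mono hK hw hq h

instance {α : Type} [Countable α] (b : α → ℝ) (V : α → Vis m)
    (β : α → List (Fin m) × Fin m → ℝ → ℝ → ℝ) : Countable (tusA b V β).ι :=
  inferInstanceAs (Countable (α × (List (Fin m) × Fin m)))

/-! ### The diagonal -/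

/-- Without visible variable. -/
theorem ChN.uncnd {F : Fam m J} {κ : Type} {z : F.Ω → κ} {A : F.Ω → Prop} {v : κ}
    (hz : ∀ ω, A ω → z ω = v) {c : ℕ → Fin m} {r : ℕ} {K : ℕ → ℕ} {a w e : ℕ} {g : ℕ → ℕ}
    (h : ChN (F.cnd z) c r K a w e g A) : ChN F c r K a w e g A := by
  obtain ⟨G, H, h⟩ := h
  obtain ⟨G', hG'⟩ : ∃ G' : PtT F → ℕ → MvPolynomial (Option (Fin m)) ℝ,
    G' = fun y => G (y.1, y.2.1, (v, y.2.2)) := ⟨_, rfl⟩
  obtain ⟨H', hH'⟩ : ∃ H' : LnT F → ℕ → MvPolynomial (Option (Fin m)) ℝ,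
    H' = fun s => H (s.1, (v, s.2.1), s.2.2) := ⟨_, rfl⟩
  have e1 : ∀ ω : F.Ω, A ω → G' (ptr F J ω) = G (ptr (F.cnd z) J ω) := by
    intro ω hω
    rw [hG']
    show G (F.X J ω, F.T ω, (v, F.Z ω)) = G (F.X J ω, F.T ω, (z ω, F.Z ω))
    rw [hz ω hω]
  have e2 : ∀ ω : F.Ω, A ω → H' (slam F w ω) = H (slam (F.cnd z) w ω) := by
    intro ω hω
    rw [hH']
    show H (F.l ω, (v, F.Z ω), F.T1 w ω) = H (F.l ω, (z ω, F.Z ω), F.T1 w ω)
    rw [hz ω hω]
  refine ⟨G', H', fun y i => by rw [hG']; exact h.degG _ i, fun s i => by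
    rw [hH']; exact h.degH _ i, fun y i => by rw [hG']; exact h.depG _ i, fun s i => by
    rw [hH']; exact h.depH _ i, fun ω hω i hi => ?_, fun ω hω i hi b hb => ?_,
    fun ω hω i hi b hb l hl => ?_⟩
  · rw [e1 ω hω]
    exact h.pos ω hω i hi
  · rw [e1 ω hω] at hb ⊢
    rw [e2 ω hω]
    exact h.agr ω hω i hi b hb
  · rw [e1 ω hω] at hb ⊢
    exact h.lip ω hω i hi b hb l hl

/-- A variable with few values has a value with a large probability. -/
theorem exists_value {Ω κ : Type} [Fintype Ω] {p : Ω → ℝ} (hp : IsLaw p) (z : Ω → κ)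
    (A : Ω → Prop) {s : Finset κ} {C : ℕ} (hs : s.card ≤ C) (hz : ∀ ω, z ω ∈ s) :
    ∃ v : κ, Pe p A ≤ C * Pe p (fun ω => A ω ∧ z ω = v) := by
  classical
  by_contra hcon
  push Not at hcon
  have hne : Nonempty Ω := by
    by_contra h
    rw [not_nonempty_iff] at h
    have := hp.sum_one
    simp at this
  obtain ⟨ω₀⟩ := hne
  have hCpos : 0 < C := lt_of_lt_of_le (card_pos.2 ⟨_, hz ω₀⟩) hs
  have h1 : Pe p A = ∑ v ∈ s, Pe p (fun ω => A ω ∧ z ω = v) := by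
    simp only [Pe_eq]
    rw [Finset.sum_comm]
    refine Finset.sum_congr rfl fun ω _ => ?_
    by_cases hA : A ω
    · simp only [hA, true_and, if_true]
      rw [Finset.sum_ite_eq s (z ω)]
      simp [hz ω]
    · simp [hA]
  have hC0 : (0 : ℝ) < C := by exact_mod_cast hCpos
  have h2 : ∀ v, (C : ℝ) * Pe p (fun ω => A ω ∧ z ω = v) < Pe p A := hcon
  have hsne : s.Nonempty := ⟨_, hz ω₀⟩
  have h3 : (C : ℝ) * Pe p A < s.card * Pe p A := by
    calc (C : ℝ) * Pe p A = ∑ v ∈ s, (C : ℝ) * Pe p (fun ω => A ω ∧ z ω = v) := by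
          rw [← Finset.mul_sum, ← h1]
      _ < ∑ _v ∈ s, Pe p A := Finset.sum_lt_sum_of_nonempty hsne fun v _ => h2 v
      _ = s.card * Pe p A := by rw [Finset.sum_const, nsmul_eq_mul]
  have h4 : (s.card : ℝ) * Pe p A ≤ C * Pe p A :=
    mul_le_mul_of_nonneg_right (by exact_mod_cast hs) (Pe_nonneg hp A)
  linarith

/-- A label in a tube without digits is a two-sided label on a large event. -/
theorem TuB.tch (hV : V.Few) : ∃ C : ℕ, 1 ≤ C ∧ ∀ (J : ℕ) (F : Fam m J) (A : F.Ω → Prop)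
    (i : List (Fin m) × Fin m) (K w P : ℕ), TuB b V β i K w 0 P J F A →
    ∃ B : F.Ω → Prop, Sub B A ∧ Pe F.p A ≤ C * Pe F.p B ∧ (lsys m).T i K w w P J F B := by
  obtain ⟨C, hC⟩ := hV
  refine ⟨max C 1, le_max_right _ _, ?_⟩
  rintro J F A i K w P ⟨x, y, e, g, h1, h2, h3, h4, h5, h6, h7, h8, h9, h⟩
  obtain ⟨s, hs, hz⟩ := hC ⌊x * J⌋₊ J F
  obtain ⟨v, hv⟩ := exists_value F.isLaw (V.z ⌊x * J⌋₊ 0 J F) A (hs.trans (le_max_left C 1)) hz
  have e0 : ⌊y * J⌋₊ = 0 := Nat.le_zero.1 h6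
  rw [e0] at h
  refine ⟨fun ω => A ω ∧ V.z ⌊x * J⌋₊ 0 J F ω = v, fun ω hω => hω.1, hv, ?_⟩
  have h10 := ChN.hered (F.cnd (V.z ⌊x * J⌋₊ 0 J F)) _ _ _ _ _ _ _ A
    (fun ω => A ω ∧ V.z ⌊x * J⌋₊ 0 J F ω = v) (fun ω hω => hω.1) h
  have h11 := ChN.uncnd (v := v) (fun ω hω => hω.2) h10
  have hc : ∀ j ≤ i.1.length, (fun j => i.1.getD j i.2) j = cof i.1 i.2 j := by
    intro j hj
    rcases hj.lt_or_eq with h12 | h12
    · rw [Pool.LBN.cof_lt h12]
      exact List.getD_eq_getElem _ _ h12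
    · rw [Pool.LBN.cof_ge h12.ge]
      exact List.getD_eq_default _ _ h12.ge
  have h13 : Tch i.1 i.2 K ⌊x * J⌋₊ ⌊x * J⌋₊ P J F (fun ω => A ω ∧ V.z ⌊x * J⌋₊ 0 J F ω = v) :=
    Tch.of_ch h11 hc (fun _ _ => le_rfl) le_rfl h8 h7
  exact h13.mono le_rfl h5 h5

/-- **The diagonal of the numbers is at most the diagonal of the two-sided threshold.** -/
theorem TNum.diag_le {S : PCl m} (hS : S.Ne) (hV : V.Few) {i : List (Fin m) × Fin m}
    {R : ℝ → ℝ → ℝ} (hR : TNum (TuB b V β i) S R) {D : List (Fin m) × Fin m → ℝ → ℝ → ℝ}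
    (hD : ThrOf (lsys m) S D) {a : ℝ} (h0 : 0 ≤ a) (h1 : a ≤ 1) : R a 0 ≤ D i a a := by
  obtain ⟨C, hC1, hC⟩ := TuB.tch (b := b) (β := β) hV
  -- at rational points
  have key : ∀ w : ℚ, 0 ≤ w → w ≤ 1 → R w 0 ≤ D i w w := by
    intro w hw hw1
    by_contra hcon
    push Not at hcon
    have hwR : (0 : ℝ) ≤ w := by exact_mod_cast hw
    have hwR1 : (w : ℝ) ≤ 1 := by exact_mod_cast hw1
    have d0 := hD.low i w w hwR le_rfl hwR1
    obtain ⟨h, hh⟩ : ∃ h, h = (R w 0 - D i w w) / 2 := ⟨_, rfl⟩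
    have hh0 : 0 < h := by rw [hh]; linarith
    obtain ⟨K, hK⟩ := hR.att w 0 h hwR1 (by norm_num) hh0 (by rw [hh]; linarith)
    have hup := hR.up w 0
    obtain ⟨τ, hτ, J₁, hn⟩ := hD.no i K w w h hw le_rfl hw1 hh0 (by rw [hh]; linarith)
    have e : D i w w + h = R w 0 - h := by rw [hh]; ring
    rw [e] at hn
    obtain ⟨τ', hτ', J₂, ha⟩ := hK
    obtain ⟨J₃, hJ₃⟩ := exists_nat_ge (Real.log C / (τ / 2))
    refine Clp.not_false hS (Clp.base (min (τ / 2) τ') (lt_min (half_pos hτ) hτ')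
      (max (max J₁ J₂) J₃) fun J hJ F A hA => ?_)
    have k1 : J₁ ≤ J := (le_max_left _ _).trans ((le_max_left _ _).trans hJ)
    have k2 : J₂ ≤ J := (le_max_right _ _).trans ((le_max_left _ _).trans hJ)
    have k3 : (J₃ : ℝ) ≤ J := by exact_mod_cast (le_max_right _ _).trans hJ
    have h2 := ha J k2 F A (S.mono (min_le_right _ _) hA)
    simp only [zero_mul, Nat.floor_zero] at h2
    obtain ⟨B, h3, h4, h5⟩ := hC J F A i K _ _ h2
    refine hn J k1 F B ?_ h5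
    have hCR : (1 : ℝ) ≤ C := by exact_mod_cast hC1
    have h6 : Real.log C ≤ τ / 2 * J := by
      have : Real.log C / (τ / 2) ≤ J := hJ₃.trans k3
      rw [div_le_iff₀ (half_pos hτ)] at this
      linarith
    have h7 : Real.exp (-(τ / 2 * J)) * Pe F.p A ≤ Pe F.p B := by
      have h8 : (C : ℝ) ≤ Real.exp (τ / 2 * J) := by
        rw [← Real.exp_log (by linarith : (0 : ℝ) < C)]
        exact Real.exp_le_exp.2 h6
      rw [Real.exp_neg, inv_mul_le_iff₀ (Real.exp_pos _)]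
      exact h4.trans (mul_le_mul_of_nonneg_right h8 (Pe_nonneg F.isLaw B))
    have h9 := S.res (half_pos hτ).le (S.mono (min_le_left _ _) hA) h3 h7
    rwa [add_halves] at h9
  refine le_of_forall_pos_le_add fun e he => ?_
  obtain ⟨w', q', h2, h3, h4⟩ := hR.left a 0 e he
  obtain ⟨w₁, hw₁⟩ : ∃ w₁, w₁ = max w' 0 := ⟨_, rfl⟩
  have a1 : 0 ≤ w₁ := by rw [hw₁]; exact le_max_right _ _
  have a2 : (w₁ : ℝ) ≤ a := by
    rw [hw₁]
    push_cast
    exact max_le h2 h0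
  have a3 : R w' q' ≤ R w₁ 0 := hR.mono (by
    rw [hw₁]
    push_cast
    exact le_max_left _ _) h3
  have a4 := key w₁ a1 (by exact_mod_cast a2.trans h1)
  have a5 : D i w₁ w₁ ≤ D i a a := (hD.law i).mono (by exact_mod_cast a1) le_rfl a2 a2 le_rfl h1
  linarith

/-! ### The numbers -/

/-- The envelope of the numbers of one chart, for windows at most `2 ^ (-b)` and at most `c`
digits. -/
noncomputable def enve (b c : ℝ) (D : ℝ → ℝ → ℝ) (R : ℝ → ℝ → ℝ) : ℝ → ℝ → ℝ :=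
  env (rmx b c (fun a => D a a) R)

/-- **The data of the envelope.** -/
theorem TNum.rdat {S : PCl m} (hS : S.Ne) (hV : V.Few) {i : List (Fin m) × Fin m}
    {R : ℝ → ℝ → ℝ} (hR : TNum (TuB b V β i) S R) {D : List (Fin m) × Fin m → ℝ → ℝ → ℝ}
    (hD : ThrOf (lsys m) S D) {c : ℝ} (hc : 0 ≤ c) :
    RDat (rmx b c (fun a => D i a a) R) (fun a => D i a a) :=
  rdat_law hc (hD.law i) (hD.low i) (hD.up i) (fun h1 h2 => hR.mono h1 h2) hR.up
    fun h0 _ h1 => hR.diag_le hS hV hD h0 h1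

/-- **The numbers of the labels in tubes, over their envelopes**, for countably many pairs `(b, V)`
at once. -/
theorem rec_num {α : Type} [Countable α] (b c : α → ℝ) (V : α → Vis m) {S : PCl m} (hS : S.Ne)
    (D : List (Fin m) × Fin m → ℝ → ℝ → ℝ) (N : ℕ) :
    ∃ (S' : PCl m) (R β : α → List (Fin m) × Fin m → ℝ → ℝ → ℝ), S'.Ne ∧
      (∀ (τ : ℝ) (J : ℕ) (F : Fam m J) (A : F.Ω → Prop), S'.St τ J F A → S.St τ J F A) ∧
      TThr (tusA b V β) S' (fun i => R i.1 i.2) ∧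
      ∀ x i, i.1.length < N → β x i = enve (b x) (c x) (D i) (R x i) := by
  induction N with
  | zero =>
    obtain ⟨S', R, h1, h2, h3⟩ := tthr (tusA b V fun _ _ _ _ => 0) S hS
    exact ⟨S', fun x i => R (x, i), fun _ _ _ _ => 0, h1, h2, h3, fun x i hi => by omega⟩
  | succ N ih =>
    obtain ⟨S₀, R₀, β₀, h1, h2, h3, h4⟩ := ih
    obtain ⟨β, hβ⟩ : ∃ β : α → List (Fin m) × Fin m → ℝ → ℝ → ℝ, β = fun x i =>
      if i.1.length = N then enve (b x) (c x) (D i) (R₀ x i) else β₀ x i := ⟨_, rfl⟩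
    obtain ⟨S', R', h5, h6, h7⟩ := tthr (tusA b V β) S₀ h1
    obtain ⟨R, hR⟩ : ∃ R : α → List (Fin m) × Fin m → ℝ → ℝ → ℝ, R = fun x i =>
      if i.1.length ≤ N then R₀ x i else R' (x, i) := ⟨_, rfl⟩
    refine ⟨S', R, β, h5, fun τ J F A h => h2 τ J F A (h6 τ J F A h), ?_, ?_⟩
    · refine TThr.of_num fun i => ?_
      obtain ⟨x, i⟩ := i
      by_cases hi : i.1.length ≤ N
      · have e1 : R x i = R₀ x i := by rw [hR]; exact if_pos hi
        have e2 : TuB (b x) (V x) (β x) i = TuB (b x) (V x) (β₀ x) i := by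
          refine TuB.congr (fun j hj => ?_) (b x) (V x)
          rw [hβ]
          exact if_neg (by omega)
        show TNum (TuB (b x) (V x) (β x) i) S' (R x i)
        rw [e1, e2]
        exact (h3.num (x, i)).sub h6
      · have e1 : R x i = R' (x, i) := by rw [hR]; exact if_neg hi
        show TNum (TuB (b x) (V x) (β x) i) S' (R x i)
        rw [e1]
        exact h7.num (x, i)
    · intro x i hi
      have e1 : R x i = R₀ x i := by rw [hR]; exact if_pos (by omega)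
      rw [e1, hβ]
      rcases Nat.lt_or_ge i.1.length N with h8 | h8
      · have e2 : (if i.1.length = N then enve (b x) (c x) (D i) (R₀ x i) else β₀ x i) = β₀ x i :=
          if_neg (by omega)
        show (if i.1.length = N then enve (b x) (c x) (D i) (R₀ x i) else β₀ x i) = _
        rw [e2]
        exact h4 x i h8
      · exact if_pos (by omega)

end Pool.RTS
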