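import Pool.Agent.H29.REC.Dig

/-!
# Operations with visible variables

`Vis.dirs P`: the direction, `P w q J` digits. `Vis.join V V'`: both variables. `Vis.Line`: the
variable is a function of the line and of the window. `Vis.Dir`: it shows `q` digits of the
direction.
-/

set_option autoImplicit false

namespace Pool.RTS

open Finset Real
open Pool.Agent.H49.Ent Pool.Agent.H32.Dense Pool.STK Pool.KA Pool.KSAT Pool.K2S Pool.PB Pool.S6C
open Pool.GEN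

variable {m J : ℕ}

/-- Fewer digits of the direction. -/
theorem dir_coarse {F : Fam m J} {r r' : ℕ} (h : r ≤ r') (ω : F.Ω) :
    F.D r ω = fun i => F.D r' ω i / 2 ^ (r' - r) := by
  funext i
  have h1 : (2 : ℝ) ^ r * F.d ω i = (2 ^ r' * F.d ω i) / ((2 ^ (r' - r) : ℕ) : ℝ) := by
    have : (2 : ℝ) ^ r' = 2 ^ r * 2 ^ (r' - r) := by
      rw [← pow_add]
      congr 1
      omega
    rw [this]
    push_cast
    field_simp
  change ⌊(2 : ℝ) ^ r * F.d ω i⌋ = ⌊(2 : ℝ) ^ r' * F.d ω i⌋ / 2 ^ (r' - r)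
  rw [h1, Int.floor_div_natCast]
  push_cast
  rfl

/-- **Digits of the direction.** -/
noncomputable def Vis.dirs (m : ℕ) (P : ℕ → ℕ → ℕ → ℕ)
    (hP : ∀ w w' q q' J : ℕ, w ≤ w' → q ≤ q' → P w q J ≤ P w' q' J) : Vis m where
  κ _ _ := Fin m → ℤ
  z w q J F ω := F.D (P w q J) ω
  nest := by
    intro w w' q q' J F hw _ hq _
    refine ⟨fun y i => y i / 2 ^ (P w' q' J - P w q J), fun ω => ?_⟩
    exact dir_coarse (hP w w' q q' J hw hq) ω

/-- No digits: few values. -/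
theorem Vis.dirs_few {P : ℕ → ℕ → ℕ → ℕ}
    {hP : ∀ w w' q q' J : ℕ, w ≤ w' → q ≤ q' → P w q J ≤ P w' q' J}
    (h0 : ∀ w J : ℕ, P w 0 J = 0) : (Vis.dirs m P hP).Few := by
  classical
  refine ⟨3 ^ m, fun w J F => ?_⟩
  obtain ⟨s, hs⟩ : ∃ s : Finset (Fin m → ℤ), s = Fintype.piFinset fun _ => Finset.Icc (-1) 1 :=
    ⟨_, rfl⟩
  have h1 : s.card ≤ 3 ^ m := by
    rw [hs, Fintype.card_piFinset]
    simp
  have h2 : ∀ ω, (Vis.dirs m P hP).z w 0 J F ω ∈ s := by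
    intro ω
    have e : (Vis.dirs m P hP).z w 0 J F ω = F.D 0 ω := by
      show F.D (P w 0 J) ω = F.D 0 ω
      rw [h0]
    rw [e, hs]
    refine Fintype.mem_piFinset.2 fun i => ?_
    have h3 := abs_le.1 (F.dir ω i)
    change ⌊(2 : ℝ) ^ 0 * F.d ω i⌋ ∈ _
    rw [pow_zero, one_mul, Finset.mem_Icc]
    refine ⟨Int.le_floor.2 (by push_cast; exact h3.1), ?_⟩
    have h4 : (⌊F.d ω i⌋ : ℝ) ≤ ((1 : ℤ) : ℝ) := (Int.floor_le _).trans (by push_cast; exact h3.2)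
    exact_mod_cast h4
  exact ⟨s, h1, h2⟩

/-- **Two visible variables.** -/
noncomputable def Vis.join (V V' : Vis m) : Vis m where
  κ J F := V.κ J F × V'.κ J F
  z w q J F ω := (V.z w q J F ω, V'.z w q J F ω)
  nest := by
    intro w w' q q' J F h1 h2 h3 h4
    obtain ⟨φ, hφ⟩ := V.nest F h1 h2 h3 h4
    obtain ⟨φ', hφ'⟩ := V'.nest F h1 h2 h3 h4
    exact ⟨fun y => (φ y.1, φ' y.2), fun ω => Prod.ext (hφ ω) (hφ' ω)⟩

theorem Vis.Few.join {V V' : Vis m} (h : V.Few) (h' : V'.Few) : (V.join V').Few := by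
  obtain ⟨C, hC⟩ := h
  obtain ⟨C', hC'⟩ := h'
  refine ⟨C * C', fun w J F => ?_⟩
  obtain ⟨s, h1, h2⟩ := hC w J F
  obtain ⟨s', h3, h4⟩ := hC' w J F
  obtain ⟨t, ht⟩ : ∃ t : Finset (V.κ J F × V'.κ J F), t = s ×ˢ s' := ⟨_, rfl⟩
  have h5 : t.card ≤ C * C' := by
    rw [ht, card_product]
    exact Nat.mul_le_mul h1 h3
  have h6 : ∀ ω, (V.join V').z w 0 J F ω ∈ t := by
    intro ω
    rw [ht]
    exact mem_product.2 ⟨h2 ω, h4 ω⟩
  exact ⟨t, h5, h6⟩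

/-! ### Functions of the line, digits of the direction -/

/-- The variable is a function of the line and of the window. -/
def Vis.Line (V : Vis m) : Prop := ∀ (w q J : ℕ) (F : Fam m J) (ω ω' : F.Ω), w ≤ J →
  slam F w ω = slam F w ω' → V.z w q J F ω = V.z w q J F ω'

/-- The variable shows `q` digits of the direction. -/
def Vis.Dir (V : Vis m) : Prop := ∀ (w q J : ℕ) (F : Fam m J), ∃ φ : V.κ J F → Fin m → ℤ,
  ∀ ω, F.D q ω = φ (V.z w q J F ω)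

theorem Vis.Line.join {V V' : Vis m} (h : V.Line) (h' : V'.Line) : (V.join V').Line :=
  fun w q J F ω ω' hw e => Prod.ext (h w q J F ω ω' hw e) (h' w q J F ω ω' hw e)

theorem Vis.dirs_line {P : ℕ → ℕ → ℕ → ℕ}
    {hP : ∀ w w' q q' J : ℕ, w ≤ w' → q ≤ q' → P w q J ≤ P w' q' J} :
    (Vis.dirs m P hP).Line := by
  intro w q J F ω ω' _ e
  have e1 : F.l ω = F.l ω' := (Prod.ext_iff.mp e).1
  have e2 : F.d ω = F.d ω' := (Prod.ext_iff.mp e1).2
  show fl (P w q J) (F.d ω) = fl (P w q J) (F.d ω')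
  rw [e2]

/-- **Digits of some coordinates of the direction.** -/
noncomputable def Vis.dirE {n : ℕ} (ε : Fin n → Fin m) (P : ℕ → ℕ → ℕ → ℕ)
    (hP : ∀ w w' q q' J : ℕ, w ≤ w' → q ≤ q' → P w q J ≤ P w' q' J) : Vis m where
  κ _ _ := Fin n → ℤ
  z w q J F ω := fun k => F.D (P w q J) ω (ε k)
  nest := by
    intro w w' q q' J F hw _ hq _
    refine ⟨fun y k => y k / 2 ^ (P w' q' J - P w q J), fun ω => ?_⟩
    funext k
    exact congrFun (dir_coarse (hP w w' q q' J hw hq) ω) (ε k)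

/-- No digits: few values. -/
theorem Vis.dirE_few {n : ℕ} {ε : Fin n → Fin m} {P : ℕ → ℕ → ℕ → ℕ}
    {hP : ∀ w w' q q' J : ℕ, w ≤ w' → q ≤ q' → P w q J ≤ P w' q' J}
    (h0 : ∀ w J : ℕ, P w 0 J = 0) : (Vis.dirE ε P hP).Few := by
  classical
  refine ⟨3 ^ n, fun w J F => ?_⟩
  obtain ⟨s, hs⟩ : ∃ s : Finset (Fin n → ℤ), s = Fintype.piFinset fun _ => Finset.Icc (-1) 1 :=
    ⟨_, rfl⟩
  have h1 : s.card ≤ 3 ^ n := by
    rw [hs, Fintype.card_piFinset]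
    simp
  have h2 : ∀ ω, (Vis.dirE ε P hP).z w 0 J F ω ∈ s := by
    intro ω
    have e : (Vis.dirE ε P hP).z w 0 J F ω = fun k => F.D 0 ω (ε k) := by
      show (fun k => F.D (P w 0 J) ω (ε k)) = fun k => F.D 0 ω (ε k)
      rw [h0]
    rw [e, hs]
    refine Fintype.mem_piFinset.2 fun k => ?_
    have h3 := abs_le.1 (F.dir ω (ε k))
    change ⌊(2 : ℝ) ^ 0 * F.d ω (ε k)⌋ ∈ _
    rw [pow_zero, one_mul, Finset.mem_Icc]
    refine ⟨Int.le_floor.2 (by push_cast; exact h3.1), ?_⟩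
    have h4 : (⌊F.d ω (ε k)⌋ : ℝ) ≤ ((1 : ℤ) : ℝ) :=
      (Int.floor_le _).trans (by push_cast; exact h3.2)
    exact_mod_cast h4
  exact ⟨s, h1, h2⟩

theorem Vis.dirE_line {n : ℕ} {ε : Fin n → Fin m} {P : ℕ → ℕ → ℕ → ℕ}
    {hP : ∀ w w' q q' J : ℕ, w ≤ w' → q ≤ q' → P w q J ≤ P w' q' J} :
    (Vis.dirE ε P hP).Line := by
  intro w q J F ω ω' _ e
  have e1 : F.l ω = F.l ω' := (Prod.ext_iff.mp e).1
  have e2 : F.d ω = F.d ω' := (Prod.ext_iff.mp e1).2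
  show (fun k => fl (P w q J) (F.d ω) (ε k)) = fun k => fl (P w q J) (F.d ω') (ε k)
  rw [e2]

theorem Vis.dig_line {I : Type} {X : I → ∀ (J : ℕ) (F : Fam m J), F.Ω → ℝ} {wi : I → ℕ → ℕ}
    (hX : ∀ (i : I) (J : ℕ) (F : Fam m J) (ω ω' : F.Ω),
      slam F (wi i J) ω = slam F (wi i J) ω' → X i J F ω = X i J F ω') :
    (Vis.dig X wi).Line := by
  intro w q J F ω ω' hw e
  funext i
  show (if q = 0 ∨ w < wi i J then (0 : ℤ) else ⌊(2 : ℝ) ^ q * X i J F ω⌋) =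
    if q = 0 ∨ w < wi i J then (0 : ℤ) else ⌊(2 : ℝ) ^ q * X i J F ω'⌋
  by_cases h : q = 0 ∨ w < wi i J
  · rw [if_pos h, if_pos h]
  · rw [if_neg h, if_neg h]
    have h1 : wi i J ≤ w := by omega
    have h2 : slam F (wi i J) ω = slam F (wi i J) ω' := by
      rw [slam_coarse F h1 hw ω, slam_coarse F h1 hw ω', e]
    rw [hX i J F ω ω' h2]

theorem Vis.dirs_dir {P : ℕ → ℕ → ℕ → ℕ}
    {hP : ∀ w w' q q' J : ℕ, w ≤ w' → q ≤ q' → P w q J ≤ P w' q' J}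
    (h : ∀ w q J, q ≤ P w q J) : (Vis.dirs m P hP).Dir := by
  intro w q J F
  exact ⟨fun y i => y i / 2 ^ (P w q J - q), fun ω => dir_coarse (h w q J) ω⟩

theorem Vis.Dir.join {V V' : Vis m} (h : V'.Dir) : (V.join V').Dir := by
  intro w q J F
  obtain ⟨φ, hφ⟩ := h w q J F
  exact ⟨fun y => φ y.2, hφ⟩

end Pool.RTS
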